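import Pool.Agent.H52.NF.Exc

/-!
Asymptotics: choice of the parameters.
-/

set_option autoImplicit false

namespace Pool.Agent.H52.NF

open Finset Filter Topology
open Pool.Agent.H52.NF.DC (dlt S Pol V)

theorem log_le_eps (ε : ℝ) (hε : 0 < ε) : ∃ X : ℝ, 1 ≤ X ∧ ∀ x, X ≤ x → Real.log x ≤ ε * x := by
  have h := Real.isLittleO_log_id_atTop.def hε
  obtain ⟨X, hX⟩ := eventually_atTop.1 h
  refine ⟨max X 1, le_max_right _ _, fun x hx => ?_⟩
  have h1 := hX x ((le_max_left _ _).trans hx)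
  have hx1 : 1 ≤ x := (le_max_right _ _).trans hx
  rw [Real.norm_eq_abs, Real.norm_eq_abs, id, abs_of_nonneg (Real.log_nonneg hx1),
    abs_of_pos (by linarith)] at h1
  exact h1

/-- primes between `√Q` and `Q` -/
theorem primes_set : ∃ Qs : ℕ, ∀ Q : ℕ, Qs ≤ Q → ∃ QQ : Finset ℕ,
    (∀ q ∈ QQ, q.Prime ∧ Nat.sqrt Q ≤ q ∧ q ≤ Q) ∧ (Q : ℝ) / (2 * Real.log Q) ≤ QQ.card ∧
      ∑ q ∈ QQ, Real.log q ≤ 2 * Q := by
  classical
  obtain ⟨X, hX1, hX⟩ := log_le_eps (1 / 40) (by norm_num)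
  refine ⟨⌈X ^ 2⌉₊ + 10, fun Q hQ => ?_⟩
  have hQ10 : 10 ≤ Q := by omega
  have hQr : X ^ 2 ≤ Q := (Nat.le_ceil _).trans (by exact_mod_cast (by omega : ⌈X ^ 2⌉₊ ≤ Q))
  have hQ10r : (10 : ℝ) ≤ Q := by exact_mod_cast hQ10
  set QQ := (Finset.range (Q + 1)).filter (fun q => q.Prime ∧ Nat.sqrt Q ≤ q) with hQQ
  have hlogQ : 0 < Real.log Q := Real.log_pos (by linarith)
  refine ⟨QQ, ?_, ?_, ?_⟩
  · intro q hq
    rw [hQQ, Finset.mem_filter, Finset.mem_range] at hq
    exact ⟨hq.2.1, hq.2.2, by omega⟩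
  · have h1 := Chebyshev.pi_ge Q
    have h2 : (Nat.primeCounting Q) ≤ QQ.card + Nat.sqrt Q := by
      rw [Nat.primeCounting, Nat.primeCounting', Nat.count_eq_card_filter_range]
      have hsub : (Finset.range (Q + 1)).filter Nat.Prime ⊆ QQ ∪ Finset.range (Nat.sqrt Q) := by
        intro p hp
        simp only [hQQ, Finset.mem_filter, Finset.mem_union, Finset.mem_range] at hp ⊢
        by_cases h : Nat.sqrt Q ≤ p
        · exact Or.inl ⟨hp.1, hp.2, h⟩
        · exact Or.inr (by omega)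
      refine (Finset.card_le_card hsub).trans ((Finset.card_union_le _ _).trans ?_)
      rw [Finset.card_range]
    have h3 : (Nat.primeCounting Q : ℝ) ≤ QQ.card + √Q := by
      have h4 : (Nat.primeCounting Q : ℝ) ≤ QQ.card + Nat.sqrt Q := by exact_mod_cast h2
      have h5 : (Nat.sqrt Q : ℝ) ≤ √Q := by
        apply Real.le_sqrt_of_sq_le
        exact_mod_cast Nat.sqrt_le' Q
      linarith
    have h6 : (Q : ℝ) / (2 * Real.log Q) + √Q ≤ (Q * Real.log 2 - Real.log (Q + 1)) / Real.log Q := by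
      rw [le_div_iff₀ hlogQ]
      have e1 : ((Q : ℝ) / (2 * Real.log Q) + √Q) * Real.log Q = Q / 2 + √Q * Real.log Q := by
        field_simp
      rw [e1]
      have hs : X ≤ √Q := by
        apply Real.le_sqrt_of_sq_le hQr
      have h7 := hX (√Q) hs
      have h8 : Real.log (√Q) = Real.log Q / 2 := Real.log_sqrt (by positivity)
      rw [h8] at h7
      have h9 : √(Q : ℝ) * √Q = Q := Real.mul_self_sqrt (by positivity)
      have h10 : √(Q : ℝ) * Real.log Q ≤ 1 / 20 * Q := by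
        have h11 : 0 ≤ √(Q : ℝ) := Real.sqrt_nonneg _
        nlinarith
      have h12 := hX (Q + 1) (by
        have : X ≤ X ^ 2 := by nlinarith
        linarith)
      have h13 := Real.log_two_gt_d9
      nlinarith
    linarith
  · have h1 : ∑ q ∈ QQ, Real.log q ≤ Chebyshev.theta (Q : ℝ) := by
      rw [Chebyshev.theta_eq_sum_Icc]
      rw [Nat.floor_natCast]
      apply Finset.sum_le_sum_of_subset_of_nonneg
      · intro q hq
        rw [hQQ, Finset.mem_filter, Finset.mem_range] at hq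
        rw [Finset.mem_filter, Finset.mem_Icc]
        exact ⟨⟨by omega, by omega⟩, hq.2.1⟩
      · intro q _ _
        exact Real.log_natCast_nonneg q
    have h2 := Chebyshev.theta_le_log4_mul_x (x := (Q : ℝ)) (by positivity)
    have h3 : Real.log 4 ≤ 2 := by
      have : Real.log 4 = 2 * Real.log 2 := by
        rw [show (4 : ℝ) = 2 ^ 2 by norm_num, Real.log_pow]; push_cast; ring
      rw [this]
      have := Real.log_two_lt_d9
      linarith
    have : Real.log 4 * Q ≤ 2 * Q := mul_le_mul_of_nonneg_right h3 (by positivity)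
    linarith

end Pool.Agent.H52.NF
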