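import Pool.Agent.H52.NF.Start
import Pool.Agent.H52.NF.Lib3

/-!
The exceptional sets of the dilation relation.
-/

set_option autoImplicit false

namespace Pool.Agent.H52.NF

open Finset
open Pool.Agent.H52.NF.DC (dlt S Pol V)
open Pool.Agent.H52.NF.Gen (badG vv)

/-- number of nonzero places -/
noncomputable def Dc (b : ℕ) (U : ℕ → ℤ) (N : ℕ) : ℕ :=
  ((Finset.Icc 1 N).filter (fun k => dlt b U k ≠ 0)).card

theorem sum_pow_le (q : ℕ) (hq : 2 ≤ q) (F : ℕ) : ∑ i ∈ range F, q ^ i ≤ q ^ F := by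
  induction F with
  | zero => simp
  | succ F ih =>
    rw [Finset.sum_range_succ, pow_succ]
    nlinarith [Nat.zero_le (q ^ F)]

theorem card_div (B : Finset ℕ) (r N : ℕ) (hr : 0 < r) :
    ((range (N + 1)).filter (fun R => R / r ∈ B)).card ≤ B.card * r := by
  classical
  have hsub : (range (N + 1)).filter (fun R => R / r ∈ B) ⊆
      B.biUnion fun x => Finset.Ico (x * r) (x * r + r) := by
    intro R hR
    rw [Finset.mem_filter] at hR
    rw [Finset.mem_biUnion]
    refine ⟨R / r, hR.2, ?_⟩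
    rw [Finset.mem_Ico]
    have h1 := Nat.div_add_mod R r
    have h2 := Nat.mod_lt R hr
    have h3 : r * (R / r) = R / r * r := mul_comm _ _
    omega
  refine (Finset.card_le_card hsub).trans ?_
  refine Finset.card_biUnion_le.trans ?_
  rw [Finset.sum_congr rfl (g := fun _ => r) (fun x _ => by rw [Nat.card_Ico]; omega),
    Finset.sum_const, smul_eq_mul]

theorem V_le (b : ℕ) (U : ℕ → ℤ) (G : ℕ) (hG : ∀ k, 1 ≤ k → |dlt b U k| ≤ G) (N : ℕ) :
    V b U N ≤ |U 0| + G * Dc b U N := by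
  unfold V
  rw [Finset.sum_range_succ']
  have h1 : ∑ k ∈ range N, |dlt b U (k + 1)| ≤ G * Dc b U N := by
    have h2 : ∑ k ∈ range N, |dlt b U (k + 1)| = ∑ k ∈ Finset.Icc 1 N, |dlt b U k| := by
      rw [Finset.range_eq_Ico, Finset.sum_Ico_add' (fun k => |dlt b U k|) 0 N 1]
      rfl
    rw [h2]
    have h3 : ∑ k ∈ Finset.Icc 1 N, |dlt b U k| =
        ∑ k ∈ (Finset.Icc 1 N).filter (fun k => dlt b U k ≠ 0), |dlt b U k| := by
      rw [Finset.sum_filter]
      apply Finset.sum_congr rfl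
      intro k _
      split_ifs with h
      · rfl
      · push Not at h; rw [h]; simp
    rw [h3]
    calc ∑ k ∈ (Finset.Icc 1 N).filter (fun k => dlt b U k ≠ 0), |dlt b U k|
        ≤ ∑ k ∈ (Finset.Icc 1 N).filter (fun k => dlt b U k ≠ 0), (G : ℤ) := by
          apply Finset.sum_le_sum
          intro k hk
          rw [Finset.mem_filter, Finset.mem_Icc] at hk
          exact hG k hk.1.1
      _ = G * Dc b U N := by
          rw [Finset.sum_const, nsmul_eq_mul, mul_comm]; rfl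
  have h4 : |dlt b U 0| = |U 0| := rfl
  rw [h4]
  linarith

/-- the exceptional sets -/
theorem exc (f : Polynomial ℤ) (hf : f.Monic) (hirr : Irreducible f) (hd : 2 ≤ f.natDegree)
    (b : ℕ) (hb : 2 ≤ b) (t C0 : ℝ) (ht : (f.map (Int.castRingHom ℝ)).eval t = 0)
    (U : ℕ → ℤ) (hU : ∀ K, |(U K : ℝ) - (b : ℝ) ^ K * t| ≤ C0) (G : ℕ)
    (hG : ∀ k, 1 ≤ k → |dlt b U k| ≤ G) :
    ∃ q0 C : ℕ, 1 ≤ C ∧ ∀ N q : ℕ, q.Prime → q0 ≤ q → (b : ZMod q) ≠ 0 ∧
      ∃ E : Finset ℕ, E.card ≤ q ^ f.natDegree.factorial *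
        (C * (Dc b U N + 1)) ^ (f.natDegree * q) ∧
        ∀ R ≤ N, R ∉ E → sg b U q (R / q ^ f.natDegree.factorial) = sg b U q R := by
  classical
  obtain ⟨C, hC1, hC⟩ := Pool.Agent.H52.NF.Gen.badG_card f hf f.natDegree rfl (by omega) b hb t C0
    ht U hU
  obtain ⟨D, hD0, hD⟩ := Pool.Agent.H52.NF.Frob.sep_of_large f hf hirr
  obtain ⟨u0, hu0⟩ : ∃ u0 : ℕ, |U 0| = u0 := ⟨(U 0).natAbs, (Int.natCast_natAbs _).symm⟩
  set C' : ℕ := ⌈C⌉₊ * (1 + u0 + G) with hC'
  have hCc : C ≤ ⌈C⌉₊ := Nat.le_ceil C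
  have hC'1 : 1 ≤ C' := by
    apply Nat.mul_pos
    · exact Nat.ceil_pos.2 (by linarith)
    · omega
  refine ⟨max D (b + 1), C', hC'1, fun N q hq hqq => ?_⟩
  have : Fact q.Prime := ⟨hq⟩
  have hbq : (b : ZMod q) ≠ 0 := by
    intro h
    rw [ZMod.natCast_eq_zero_iff] at h
    have h2 := Nat.le_of_dvd (by omega) h
    have := le_max_right D (b + 1)
    omega
  refine ⟨hbq, ?_⟩
  set F := f.natDegree.factorial with hFd
  set B := badG f f.natDegree b (Pol b U N) q N with hB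
  refine ⟨(range (N + 1)).filter (fun R => ∃ i < F, R / q ^ i ∈ B), ?_, ?_⟩
  · have hBc : (B.card : ℝ) ≤ ((C' * (Dc b U N + 1) : ℕ) : ℝ) ^ (f.natDegree * q) := by
      refine (hC N q hq.one_le).1.trans ?_
      have hV := V_le b U G hG N
      have hV0 := Pool.Agent.H52.NF.DC.V_nonneg b U N
      have hVR : (V b U N : ℝ) ≤ u0 + G * Dc b U N := by
        rw [hu0] at hV
        exact_mod_cast hV
      have hV0R : (0 : ℝ) ≤ (V b U N : ℝ) := by exact_mod_cast hV0
      apply pow_le_pow_left₀ (by positivity)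
      rw [hC']
      push_cast
      have h1 : 1 + (V b U N : ℝ) ≤ (1 + (u0 : ℝ) + G) * (Dc b U N + 1) := by
        have h2 : (0 : ℝ) ≤ u0 := Nat.cast_nonneg _
        have h3 : (0 : ℝ) ≤ G := Nat.cast_nonneg _
        have h4 : (0 : ℝ) ≤ Dc b U N := Nat.cast_nonneg _
        nlinarith [mul_nonneg h2 h4]
      calc C * (1 + (V b U N : ℝ)) ≤ ⌈C⌉₊ * ((1 + (u0 : ℝ) + G) * (Dc b U N + 1)) := by
            apply mul_le_mul hCc h1 (by linarith) (by positivity)
        _ = _ := by ring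
    have hBn : B.card ≤ (C' * (Dc b U N + 1)) ^ (f.natDegree * q) := by exact_mod_cast hBc
    have hsub : (range (N + 1)).filter (fun R => ∃ i < F, R / q ^ i ∈ B) ⊆
        (range F).biUnion fun i => (range (N + 1)).filter (fun R => R / q ^ i ∈ B) := by
      intro R hR
      rw [Finset.mem_filter] at hR
      obtain ⟨h1, i, hi, h2⟩ := hR
      rw [Finset.mem_biUnion]
      exact ⟨i, Finset.mem_range.2 hi, Finset.mem_filter.2 ⟨h1, h2⟩⟩
    refine (Finset.card_le_card hsub).trans (Finset.card_biUnion_le.trans ?_)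
    calc ∑ i ∈ range F, ((range (N + 1)).filter (fun R => R / q ^ i ∈ B)).card
        ≤ ∑ i ∈ range F, B.card * q ^ i := by
          apply Finset.sum_le_sum
          intro i _
          exact card_div B (q ^ i) N (pow_pos hq.pos _)
      _ = B.card * ∑ i ∈ range F, q ^ i := by rw [Finset.mul_sum]
      _ ≤ (C' * (Dc b U N + 1)) ^ (f.natDegree * q) * q ^ F :=
          Nat.mul_le_mul hBn (sum_pow_le q hq.two_le F)
      _ = _ := mul_comm _ _
  · intro R hR hRE
    have h1 : ∀ R' ≤ N, vv b (Pol b U N) q 1 R' = sg b U q R' := by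
      intro R' hR'
      unfold vv sg
      rw [pow_one, Pool.Agent.H52.NF.DC.S_Pol b U N R' hR']
    rw [← h1 R hR, ← h1 _ ((Nat.div_le_self _ _).trans hR)]
    apply Pool.Agent.H52.NF.Frob.s_dil f hf f.natDegree rfl hd b (Pol b U N) q hbq
      (hD q ((le_max_left _ _).trans hqq)) N R hR
    intro i hi hmem
    apply hRE
    exact Finset.mem_filter.2 ⟨Finset.mem_range.2 (by omega), i, hi, hmem⟩

end Pool.Agent.H52.NF
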