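import Mathlib

/-!
Clusters of a set `D` of natural numbers: any two elements are at distance `≤ L` or `≥ W`.
One step: division of a cluster by `r`.
-/

set_option autoImplicit false

namespace Pool.Agent.H52.NF

open Finset

/-- any two elements of `D` between `Z` and `N` are at distance `≤ L` or `≥ W` -/
def Gap (D : ℕ → Prop) (N Z L W : ℕ) : Prop :=
  ∀ k l, Z ≤ k → D k → D l → k < l → l ≤ N → l ≤ k + L ∨ k + W ≤ l

/-- `a` is the smallest element of a cluster of `D` -/
def Node (D : ℕ → Prop) (N L W a : ℕ) : Prop :=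
  D a ∧ a ≤ N ∧ ∀ d, D d → d ≤ N → a < d + W → d < a + W → a ≤ d ∧ d ≤ a + L

/-- the smallest element of the cluster of `d` -/
theorem exists_node {D : ℕ → Prop} {N Z L W : ℕ} (hgap : Gap D N Z L W) (hLW : 2 * L < W) {d : ℕ}
    (hd : D d) (hdN : d ≤ N) (hdZ : Z + 2 * W ≤ d) : ∃ a, Node D N L W a ∧ a ≤ d ∧ d ≤ a + L := by
  classical
  have hex : ∃ a, D a ∧ a ≤ d ∧ d ≤ a + L := ⟨d, hd, le_rfl, Nat.le_add_right _ _⟩
  set a := Nat.find hex with ha
  obtain ⟨h1, h2, h3⟩ := Nat.find_spec hex
  rw [← ha] at h1 h2 h3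
  have hmin : ∀ a', D a' → a' ≤ d → d ≤ a' + L → a ≤ a' := fun a' x y z =>
    Nat.find_min' hex ⟨x, y, z⟩
  refine ⟨a, ⟨h1, by omega, fun e he heN hae hea => ?_⟩, h2, h3⟩
  have hae' : a ≤ e := by
    by_contra hlt
    push Not at hlt
    rcases hgap e a (by omega) he h1 hlt (by omega) with h | h
    · rcases hgap e d (by omega) he hd (by omega) hdN with h' | h'
      · have := hmin e he (by omega) h'
        omega
      · omega
    · omega
  refine ⟨hae', ?_⟩
  rcases hae'.lt_or_eq with h | h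
  · rcases hgap a e (by omega) h1 he h heN with h' | h'
    · exact h'
    · omega
  · omega

/-- a point of an interval of length `H + 1` outside a set of `H` elements -/
theorem exists_notMem (E : Finset ℕ) (H x : ℕ) (hE : E.card ≤ H) :
    ∃ R, x ≤ R ∧ R ≤ x + H ∧ R ∉ E := by
  by_contra hcon
  push Not at hcon
  have hsub : Finset.Icc x (x + H) ⊆ E := by
    intro R hR
    rw [Finset.mem_Icc] at hR
    exact hcon R hR.1 hR.2
  have := Finset.card_le_card hsub
  rw [Nat.card_Icc] at this
  omega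

/-- one step -/
theorem step {α : Type} {D : ℕ → Prop} {N Z L W H r : ℕ} (hgap : Gap D N Z L W) (hr : 2 ≤ r)
    (hW : 3 * H + (r + 2) * L + 2 ≤ W) (s : ℕ → α) (E : Finset ℕ) (hE : E.card ≤ H)
    (hdil : ∀ R ≤ N, R ∉ E → s (R / r) = s R)
    (hs : ∀ x y, x ≤ y → y ≤ N → s x ≠ s y → ∃ d, D d ∧ x < d ∧ d ≤ y)
    {a : ℕ} (ha : Node D N L W a) (haW : W ≤ a) (haN : a + W ≤ N)
    (haZ : r * (Z + 2 * W) + (H + 1) ≤ a)
    (hne : s (a - 1) ≠ s (a + L)) :
    ∃ a', Node D N L W a' ∧ s (a' - 1) ≠ s (a' + L) ∧ r * a' ≤ a + (L + H) ∧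
      a ≤ r * a' + (r * L + H) := by
  have hconst : ∀ x y, x ≤ y → y ≤ N → (∀ d, D d → x < d → d ≤ y → False) → s x = s y := by
    intro x y hxy hyN h
    by_contra hne'
    obtain ⟨d, h1, h2, h3⟩ := hs x y hxy hyN hne'
    exact h d h1 h2 h3
  obtain ⟨hDa, _, hnode⟩ := ha
  have hLW : 2 * L < W := by nlinarith
  set X := H + r * L with hX
  have hW' : 3 * H + r * L + 2 * L + 2 ≤ W := by nlinarith
  -- four points
  obtain ⟨R1, hR1, hR1', hR1E⟩ := exists_notMem E H (a - 1 - H) hE
  obtain ⟨R2, hR2, hR2', hR2E⟩ := exists_notMem E H (a + L) hE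
  obtain ⟨R3, hR3, hR3', hR3E⟩ := exists_notMem E H (a - 1 - X - H) hE
  obtain ⟨R4, hR4, hR4', hR4E⟩ := exists_notMem E H (a + L + X) hE
  have e1 : s (R1 / r) = s (a - 1) := by
    rw [hdil R1 (by omega) hR1E]
    apply hconst _ _ (by omega) (by omega)
    intro d hd h1 h2
    have := (hnode d hd (by omega) (by omega) (by omega)).1
    omega
  have e3 : s (R3 / r) = s (a - 1) := by
    rw [hdil R3 (by omega) hR3E]
    apply hconst _ _ (by omega) (by omega)
    intro d hd h1 h2
    have := (hnode d hd (by omega) (by omega) (by omega)).1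
    omega
  have e2 : s (R2 / r) = s (a + L) := by
    rw [hdil R2 (by omega) hR2E]
    symm
    apply hconst _ _ (by omega) (by omega)
    intro d hd h1 h2
    have := (hnode d hd (by omega) (by omega) (by omega)).2
    omega
  have e4 : s (R4 / r) = s (a + L) := by
    rw [hdil R4 (by omega) hR4E]
    symm
    apply hconst _ _ (by omega) (by omega)
    intro d hd h1 h2
    have := (hnode d hd (by omega) (by omega) (by omega)).2
    omega
  have hr0 : 0 < r := by omega
  obtain ⟨d, hd, hd1, hd2⟩ := hs (R1 / r) (R2 / r) (Nat.div_le_div_right (by omega))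
    ((Nat.div_le_self _ _).trans (by omega)) (by rw [e1, e2]; exact hne)
  have hdN : d ≤ N := hd2.trans ((Nat.div_le_self _ _).trans (by omega))
  have hd1' : R1 < r * d := by
    have := (Nat.div_lt_iff_lt_mul hr0).1 hd1
    rwa [mul_comm] at this
  have hd2' : r * d ≤ R2 := by
    have := (Nat.le_div_iff_mul_le hr0).1 hd2
    rwa [mul_comm] at this
  have hdZ : Z + 2 * W ≤ d := by
    have h1 : Z + 2 * W ≤ R1 / r := by
      rw [Nat.le_div_iff_mul_le hr0, mul_comm]
      omega
    omega
  obtain ⟨a', hna', ha'd, hda'⟩ := exists_node hgap hLW hd hdN hdZ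
  have hra1 : r * a' ≤ r * d := Nat.mul_le_mul_left _ ha'd
  have hra2 : r * d ≤ r * a' + r * L := by
    have := Nat.mul_le_mul_left r hda'
    rwa [mul_add] at this
  refine ⟨a', hna', ?_, by omega, by omega⟩
  obtain ⟨hDa', ha'N, hnode'⟩ := hna'
  have f3 : s (a' - 1) = s (R3 / r) := by
    symm
    have h1 : R3 / r < a' := by
      rw [Nat.div_lt_iff_lt_mul hr0, mul_comm]
      omega
    apply hconst _ _ (by omega) (by omega)
    intro e he h2 h3
    have h4 : R3 < r * e := by
      have := (Nat.div_lt_iff_lt_mul hr0).1 h2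
      rwa [mul_comm] at this
    have h5 : a' < e + W := by
      by_contra hcon
      push Not at hcon
      have h6 : r * (e + W) ≤ r * a' := Nat.mul_le_mul_left _ hcon
      rw [mul_add] at h6
      have h7 : 2 * W ≤ r * W := Nat.mul_le_mul_right _ hr
      omega
    have h8 := (hnode' e he (by omega) h5 (by omega)).1
    have h9 : 0 < a' := lt_of_le_of_lt (Nat.zero_le _) h1
    clear h1 h2 e3 e1 e2 e4
    omega
  have f4 : s (a' + L) = s (R4 / r) := by
    have h1 : a' + L ≤ R4 / r := by
      rw [Nat.le_div_iff_mul_le hr0, mul_comm, mul_add]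
      omega
    apply hconst _ _ h1 ((Nat.div_le_self _ _).trans (by omega))
    intro e he h2 h3
    have h4 : r * e ≤ R4 := by
      have := (Nat.le_div_iff_mul_le hr0).1 h3
      rwa [mul_comm] at this
    have h5 : e < a' + W := by
      by_contra hcon
      push Not at hcon
      have h6 : r * (a' + W) ≤ r * e := Nat.mul_le_mul_left _ hcon
      rw [mul_add] at h6
      have h7 : 2 * W ≤ r * W := Nat.mul_le_mul_right _ hr
      omega
    have heN : e ≤ N := h3.trans ((Nat.div_le_self _ _).trans (by omega))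
    have := (hnode' e he heN (by omega) h5).2
    omega
  rw [f3, f4, e3, e4]
  exact hne

end Pool.Agent.H52.NF
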