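import Mathlib

/-!
The number of multipliers which can be reached in a tree, if at each node all primes but `h` of them
are allowed, and a prime remains allowed when it has just been used.
-/

set_option autoImplicit false

namespace Pool.Agent.H52.NF

open Finset

/-- repeated use of one prime -/
theorem repeat_prime {Pn : ℕ → ℕ → Prop} {Gd : ℕ → ℕ → Prop} {q F M : ℕ}
    (hq : 1 ≤ q)
    (hstep : ∀ m a, Pn m a → Gd q a → m * q ^ F ≤ M → ∃ a', Pn (m * q ^ F) a' ∧ Gd q a')
    {m a : ℕ} (h : Pn m a) (hg : Gd q a) :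
    ∀ e, m * q ^ (F * e) ≤ M → ∃ a', Pn (m * q ^ (F * e)) a' ∧ Gd q a' := by
  intro e
  induction e with
  | zero => intro _; exact ⟨a, by simpa using h, hg⟩
  | succ e ih =>
    intro hM
    have e1 : m * q ^ (F * (e + 1)) = m * q ^ (F * e) * q ^ F := by
      rw [mul_assoc, ← pow_add]; ring_nf
    rw [e1] at hM ⊢
    obtain ⟨a', h1, h2⟩ := ih (le_trans (Nat.le_mul_of_pos_right _ (pow_pos (by omega) _)) hM)
    exact hstep _ _ h1 h2 hM

/-- the tree lemma -/
theorem tree (Pn : ℕ → ℕ → Prop) (Gd : ℕ → ℕ → Prop) (QQ : Finset ℕ) (F M A h : ℕ) (hF : 1 ≤ F)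
    (hA : 1 ≤ A) (hprime : ∀ q ∈ QQ, q.Prime)
    (hstep : ∀ q ∈ QQ, ∀ m a, Pn m a → Gd q a → m * q ^ F ≤ M →
      ∃ a', Pn (m * q ^ F) a' ∧ Gd q a')
    (hbad : ∀ m a, Pn m a → ∀ P : Finset ℕ, P ⊆ QQ → (∀ q ∈ P, ¬ Gd q a) → P.card ≤ h) :
    ∀ (k : ℕ) (P : Finset ℕ), P.card = k → P ⊆ QQ → ∀ m a, Pn m a →
      m * (∏ q ∈ P, q ^ (F * (A - 1))) ≤ M →
      ∃ T : Finset ℕ, A ^ (P.card - h) ≤ T.card ∧
        ∀ u ∈ T, u ∣ ∏ q ∈ P, q ^ (F * (A - 1)) ∧ ∃ a', Pn (m * u) a' := by
  classical
  intro k
  induction k with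
  | zero =>
    intro P hP _ m a hma _
    refine ⟨{1}, by rw [hP]; simp, fun u hu => ?_⟩
    rw [Finset.mem_singleton] at hu
    subst hu
    exact ⟨one_dvd _, a, by simpa using hma⟩
  | succ k ih =>
    intro P hP hPQ m a hma hM
    rcases Nat.lt_or_ge h P.card with hh | hh
    · -- an allowed prime
      have hex : ∃ q ∈ P, Gd q a := by
        by_contra hcon
        push Not at hcon
        have := hbad m a hma P hPQ hcon
        omega
      obtain ⟨q, hqP, hq⟩ := hex
      have hqp := hprime q (hPQ hqP)
      set P' := P.erase q with hP'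
      have hP'c : P'.card = k := by
        rw [hP', Finset.card_erase_of_mem hqP, hP]; rfl
      have hP'Q : P' ⊆ QQ := (Finset.erase_subset _ _).trans hPQ
      have hprod : ∏ p ∈ P, p ^ (F * (A - 1)) = q ^ (F * (A - 1)) * ∏ p ∈ P', p ^ (F * (A - 1)) :=
        (Finset.mul_prod_erase P _ hqP).symm
      set Pr := ∏ p ∈ P', p ^ (F * (A - 1)) with hPr
      have hPr1 : 1 ≤ Pr := by
        apply Nat.one_le_iff_ne_zero.2
        rw [hPr, Finset.prod_ne_zero_iff]
        intro p hp
        exact pow_ne_zero _ (hprime p (hP'Q hp)).ne_zero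
      have hcop : Nat.Coprime q Pr := by
        rw [hPr]
        apply Nat.Coprime.prod_right
        intro p hp
        apply Nat.Coprime.pow_right
        rw [Nat.coprime_primes hqp (hprime p (hP'Q hp))]
        intro h0
        rw [← h0, hP'] at hp
        exact (Finset.notMem_erase q P) hp
      have hqe : ∀ e < A, m * q ^ (F * e) * Pr ≤ M := by
        intro e he
        refine le_trans ?_ hM
        rw [hprod, ← mul_assoc]
        apply Nat.mul_le_mul_right
        apply Nat.mul_le_mul_left
        exact Nat.pow_le_pow_right hqp.pos (Nat.mul_le_mul_left _ (by omega))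
      have hT : ∀ e, ∃ T : Finset ℕ, e < A → (A ^ (k - h) ≤ T.card ∧
          ∀ u ∈ T, u ∣ Pr ∧ ∃ a', Pn (m * q ^ (F * e) * u) a') := by
        intro e
        by_cases he : e < A
        · have h1 : m * q ^ (F * e) ≤ M :=
            le_trans (Nat.le_mul_of_pos_right _ hPr1) (hqe e he)
          obtain ⟨a', ha', _⟩ := repeat_prime hqp.one_le (hstep q (hPQ hqP)) hma hq e h1
          obtain ⟨T, hT1, hT2⟩ := ih P' hP'c hP'Q _ a' ha' (hqe e he)
          rw [hP'c] at hT1
          exact ⟨T, fun _ => ⟨hT1, hT2⟩⟩
        · exact ⟨∅, fun h => absurd h he⟩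
      choose T hT using hT
      refine ⟨(Finset.range A).biUnion fun e => (T e).image fun u => q ^ (F * e) * u, ?_, ?_⟩
      · have hinj : ∀ e, Set.InjOn (fun u => q ^ (F * e) * u) (T e : Set ℕ) := by
          intro e u _ v _ huv
          exact Nat.eq_of_mul_eq_mul_left (pow_pos hqp.pos _) huv
        rw [Finset.card_biUnion]
        · have h1 : ∀ e ∈ Finset.range A, A ^ (k - h) ≤
              ((T e).image fun u => q ^ (F * e) * u).card := by
            intro e he
            rw [Finset.card_image_of_injOn (hinj e)]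
            exact (hT e (Finset.mem_range.1 he)).1
          calc A ^ (P.card - h) = ∑ e ∈ Finset.range A, A ^ (k - h) := by
                rw [Finset.sum_const, Finset.card_range, smul_eq_mul, ← pow_succ']
                congr 1; omega
            _ ≤ _ := Finset.sum_le_sum h1
        · -- disjointness
          have key : ∀ e e', e < e' → e' < A → e < A →
              ∀ u ∈ T e, ∀ v ∈ T e', q ^ (F * e) * u ≠ q ^ (F * e') * v := by
            intro e e' hlt he' he u hu v hv heq
            have h1 : q ^ (F * e') = q ^ (F * e) * q ^ (F * (e' - e)) := by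
              rw [← pow_add, ← Nat.mul_add]; congr 2; omega
            rw [h1, mul_assoc] at heq
            have h2 := Nat.eq_of_mul_eq_mul_left (pow_pos hqp.pos _) heq
            have h3 : q ∣ u := by
              rw [h2]
              apply Dvd.dvd.mul_right
              apply dvd_pow_self
              have : 0 < F * (e' - e) := Nat.mul_pos (by omega) (by omega)
              omega
            have h4 : q ∣ Pr := h3.trans ((hT e he).2 u hu).1
            exact hqp.one_lt.ne' (Nat.Coprime.eq_one_of_dvd hcop h4)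
          intro e he e' he' hne
          rw [Finset.mem_coe, Finset.mem_range] at he he'
          rw [Function.onFun, Finset.disjoint_left]
          intro w hw hw'
          rw [Finset.mem_image] at hw hw'
          obtain ⟨u, hu, rfl⟩ := hw
          obtain ⟨v, hv, hvw⟩ := hw'
          rcases lt_or_gt_of_ne hne with hl | hl
          · exact key e e' hl he' he u hu v hv hvw.symm
          · exact key e' e hl he he' v hv u hu hvw
      · intro w hw
        rw [Finset.mem_biUnion] at hw
        obtain ⟨e, he, hw⟩ := hw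
        rw [Finset.mem_image] at hw
        obtain ⟨u, hu, rfl⟩ := hw
        rw [Finset.mem_range] at he
        obtain ⟨h1, a', h2⟩ := (hT e he).2 u hu
        refine ⟨?_, a', by rwa [← mul_assoc]⟩
        rw [hprod]
        exact Nat.mul_dvd_mul (pow_dvd_pow _ (Nat.mul_le_mul_left _ (by omega))) h1
    · refine ⟨{1}, by rw [Nat.sub_eq_zero_of_le hh]; simp, fun u hu => ?_⟩
      rw [Finset.mem_singleton] at hu
      subst hu
      exact ⟨one_dvd _, a, by simpa using hma⟩

end Pool.Agent.H52.NF
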