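import Pool.Agent.H52.NF.Lib1
import Pool.Agent.H52.NF.Step
import Pool.Agent.H52.NF.Tree

/-!
The finite form of the lower bound for the number of nonzero places of a clustered expansion.
-/

set_option autoImplicit false

namespace Pool.Agent.H52.NF

open Finset
open Pool.Agent.H52.NF.DC (dlt)

/-- the nonzero places -/
def Dp (b : ℕ) (U : ℕ → ℤ) (k : ℕ) : Prop := 1 ≤ k ∧ dlt b U k ≠ 0

/-- the partial sum `∑_{k ≤ R} g_k b^{-k}` mod `q`, that is `U_R b^{-R}` -/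
noncomputable def sg (b : ℕ) (U : ℕ → ℤ) (q R : ℕ) : ZMod q :=
  (U R : ZMod q) * ((b : ZMod q)⁻¹) ^ R

theorem sg_step (b : ℕ) (U : ℕ → ℤ) (q : ℕ) [Fact q.Prime] (hb : (b : ZMod q) ≠ 0) (R : ℕ)
    (h : ¬ Dp b U (R + 1)) : sg b U q (R + 1) = sg b U q R := by
  have h' : dlt b U (R + 1) = 0 := by
    by_contra hne
    exact h ⟨by omega, hne⟩
  unfold sg
  have : U (R + 1) = b * U R := by
    simp only [dlt] at h'; linarith
  rw [this, pow_succ]
  push_cast
  field_simp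

theorem sg_const (b : ℕ) (U : ℕ → ℤ) (q : ℕ) [Fact q.Prime] (hb : (b : ZMod q) ≠ 0) (x y : ℕ)
    (hxy : x ≤ y) (hne : sg b U q x ≠ sg b U q y) : ∃ d, Dp b U d ∧ x < d ∧ d ≤ y := by
  by_contra hcon
  push Not at hcon
  apply hne
  induction y, hxy using Nat.le_induction with
  | base => rfl
  | succ y hy ih =>
    have h1 : ¬ Dp b U (y + 1) := fun h => by
      have := hcon (y + 1) h (by omega)
      omega
    rw [sg_step b U q hb y h1]
    by_cases h2 : sg b U q x = sg b U q y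
    · exact h2
    · exact ih h2 (fun d hd hxd => by
        have := hcon d hd hxd
        omega)

/-- the mass of a cluster, times a power of `b` -/
def mass (b : ℕ) (U : ℕ → ℤ) (L a : ℕ) : ℤ := U (a + L) - (b : ℤ) ^ (L + 1) * U (a - 1)

theorem mass_le (b : ℕ) (hb : 2 ≤ b) (U : ℕ → ℤ) (G : ℕ) (hG : ∀ k, 1 ≤ k → |dlt b U k| ≤ G)
    (a : ℕ) (ha : 1 ≤ a) (L : ℕ) : |mass b U L a| ≤ G * ((b : ℤ) ^ (L + 1) - 1) := by
  have hb' : (2 : ℤ) ≤ b := by exact_mod_cast hb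
  obtain ⟨a', rfl⟩ : ∃ a', a = a' + 1 := ⟨a - 1, by omega⟩
  have hG0 : (0 : ℤ) ≤ G := by positivity
  induction L with
  | zero =>
    have h1 := hG (a' + 1) (by omega)
    simp only [mass, dlt, Nat.add_sub_cancel, add_zero, zero_add, pow_one] at h1 ⊢
    nlinarith
  | succ L ih =>
    have h1 := hG (a' + 1 + (L + 1)) (by omega)
    have e : mass b U (L + 1) (a' + 1) = b * mass b U L (a' + 1) + dlt b U (a' + 1 + (L + 1)) := by
      have e1 : a' + 1 + (L + 1) = (a' + 1 + L) + 1 := by ring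
      have e2 : dlt b U (a' + 1 + L + 1) = U (a' + 1 + L + 1) - b * U (a' + 1 + L) := rfl
      rw [e1, e2]
      unfold mass
      rw [e1, Nat.add_sub_cancel]
      ring
    rw [e]
    calc |(b : ℤ) * mass b U L (a' + 1) + dlt b U (a' + 1 + (L + 1))|
        ≤ |(b : ℤ) * mass b U L (a' + 1)| + |dlt b U (a' + 1 + (L + 1))| := abs_add_le _ _
      _ ≤ b * (G * ((b : ℤ) ^ (L + 1) - 1)) + G := by
          apply add_le_add _ h1
          rw [abs_mul, abs_of_nonneg (show (0 : ℤ) ≤ b by positivity)]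
          exact mul_le_mul_of_nonneg_left ih (by positivity)
      _ ≤ _ := by
          rw [pow_succ (b : ℤ) (L + 1)]
          nlinarith

theorem sg_ne_iff (b : ℕ) (U : ℕ → ℤ) (q : ℕ) [Fact q.Prime] (hb : (b : ZMod q) ≠ 0) (L a : ℕ)
    (ha : 1 ≤ a) : sg b U q (a - 1) = sg b U q (a + L) ↔ (q : ℤ) ∣ mass b U L a := by
  obtain ⟨a', rfl⟩ : ∃ a', a = a' + 1 := ⟨a - 1, by omega⟩
  rw [← ZMod.intCast_zmod_eq_zero_iff_dvd]
  unfold mass sg
  push_cast
  have hbb : (b : ZMod q) ^ (a' + 1 + L) * ((b : ZMod q)⁻¹) ^ (a' + 1 + L) = 1 := by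
    rw [← mul_pow, mul_inv_cancel₀ hb, one_pow]
  have hbc : (b : ZMod q) ^ (a' + 1 + L) ≠ 0 := pow_ne_zero _ hb
  have hbL : (b : ZMod q) ^ (a' + 1 + L) = b ^ (L + 1) * b ^ a' := by
    rw [← pow_add]; congr 1; ring
  have hba : (b : ZMod q) ^ a' * ((b : ZMod q)⁻¹) ^ a' = 1 := by
    rw [← mul_pow, mul_inv_cancel₀ hb, one_pow]
  constructor
  · intro h
    have h2 : (b : ZMod q) ^ (a' + 1 + L) * ((U a' : ZMod q) * ((b : ZMod q)⁻¹) ^ a') =
        (b : ZMod q) ^ (a' + 1 + L) * ((U (a' + 1 + L) : ZMod q) *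
        ((b : ZMod q)⁻¹) ^ (a' + 1 + L)) := congrArg _ h
    have h3 : (b : ZMod q) ^ (a' + 1 + L) * ((U a' : ZMod q) * ((b : ZMod q)⁻¹) ^ a') =
        b ^ (L + 1) * U a' := by
      rw [hbL]
      linear_combination (b : ZMod q) ^ (L + 1) * (U a' : ZMod q) * hba
    have h4 : (b : ZMod q) ^ (a' + 1 + L) * ((U (a' + 1 + L) : ZMod q) *
        ((b : ZMod q)⁻¹) ^ (a' + 1 + L)) = U (a' + 1 + L) := by
      linear_combination (U (a' + 1 + L) : ZMod q) * hbb
    rw [h3, h4] at h2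
    rw [h2]; ring
  · intro h
    have h5 : (U (a' + 1 + L) : ZMod q) = b ^ (L + 1) * U a' := by
      linear_combination h
    rw [h5]
    have h6 : ((b : ZMod q)⁻¹) ^ (a' + 1 + L) = ((b : ZMod q)⁻¹) ^ (L + 1) * ((b : ZMod q)⁻¹) ^ a' := by
      rw [← pow_add]; congr 1; ring
    have h7 : (b : ZMod q) ^ (L + 1) * ((b : ZMod q)⁻¹) ^ (L + 1) = 1 := by
      rw [← mul_pow, mul_inv_cancel₀ hb, one_pow]
    rw [h6]
    linear_combination (-(U a' : ZMod q) * ((b : ZMod q)⁻¹) ^ a') * h7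

/-- few primes divide a nonzero mass -/
theorem few_primes (b : ℕ) (hb : 2 ≤ b) (U : ℕ → ℤ) (G : ℕ) (hG : ∀ k, 1 ≤ k → |dlt b U k| ≤ G)
    (L a Q0 h : ℕ) (ha : 1 ≤ a) (hQ0 : 1 ≤ Q0) (hm : mass b U L a ≠ 0)
    (hh : G * b ^ (L + 1) ≤ Q0 ^ (h + 1))
    (P : Finset ℕ) (hP : ∀ q ∈ P, q.Prime ∧ Q0 ≤ q) (hd : ∀ q ∈ P, (q : ℤ) ∣ mass b U L a) :
    P.card ≤ h := by
  by_contra hcon
  push Not at hcon
  have h1 : ∏ q ∈ P, q ∣ (mass b U L a).natAbs := by
    apply Finset.prod_primes_dvd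
    · intro q hq
      exact (hP q hq).1.prime
    · intro q hq
      exact Int.natCast_dvd.1 (hd q hq)
  have h2 : ∏ q ∈ P, q ≤ (mass b U L a).natAbs :=
    Nat.le_of_dvd (Int.natAbs_pos.2 hm) h1
  have h3 : Q0 ^ P.card ≤ ∏ q ∈ P, q := by
    have := Finset.pow_card_le_prod P (fun q => q) Q0 (fun q hq => (hP q hq).2)
    exact this
  have h4 : Q0 ^ (h + 1) ≤ Q0 ^ P.card := Nat.pow_le_pow_right hQ0 hcon
  have h5 := mass_le b hb U G hG a ha L
  have h6 : ((mass b U L a).natAbs : ℤ) ≤ G * ((b : ℤ) ^ (L + 1) - 1) := by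
    rw [Int.natCast_natAbs]; exact h5
  have h7 : (G * b ^ (L + 1) : ℤ) ≤ (mass b U L a).natAbs := by
    have : G * b ^ (L + 1) ≤ (mass b U L a).natAbs := hh.trans (h4.trans (h3.trans h2))
    exact_mod_cast this
  have hG0 : G = 0 := by
    have : (0 : ℤ) ≤ G := by positivity
    have h8 : (G : ℤ) ≤ 0 := by nlinarith
    have : (G : ℤ) = 0 := le_antisymm h8 this
    exact_mod_cast this
  rw [hG0] at h6
  have h9 : 0 < (mass b U L a).natAbs := Int.natAbs_pos.2 hm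
  omega

/-- the finite form of the lower bound -/
theorem finite_main (b : ℕ) (hb : 2 ≤ b) (U : ℕ → ℤ) (G : ℕ)
    (hG : ∀ k, 1 ≤ k → |dlt b U k| ≤ G) (N Z L W H M A h F Q0 : ℕ) (QQ : Finset ℕ)
    (hgap : Gap (Dp b U) N Z L W) (hF : 1 ≤ F) (hA : 1 ≤ A) (hQ0 : 1 ≤ Q0)
    (hQQ : ∀ q ∈ QQ, q.Prime ∧ Q0 ≤ q ∧ (b : ZMod q) ≠ 0 ∧ 3 * H + (q ^ F + 2) * L + 2 ≤ W)
    (hE : ∀ q ∈ QQ, ∃ E : Finset ℕ, E.card ≤ H ∧
      ∀ R ≤ N, R ∉ E → sg b U q (R / q ^ F) = sg b U q R)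
    (hh : G * b ^ (L + 1) ≤ Q0 ^ (h + 1))
    (hM : ∏ q ∈ QQ, q ^ (F * (A - 1)) ≤ M) (k0 : ℕ)
    (hk0 : Node (Dp b U) N L W k0) (hk0m : mass b U L k0 ≠ 0) (h1' : 4 * M ^ 2 * (Z + W) ≤ k0)
    (h2 : k0 + 2 * W ≤ N) (hW : 2 * L + H < W) :
    A ^ (QQ.card - h) ≤ ((Finset.Icc 1 N).filter (fun k => dlt b U k ≠ 0)).card := by
  classical
  set E2 := 2 * L + H with hE2
  have h1 : 4 * M ^ 2 * W ≤ k0 :=
    le_trans (Nat.mul_le_mul_left _ (by omega)) h1'
  have hM1 : 1 ≤ M := by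
    refine le_trans ?_ hM
    apply Nat.one_le_iff_ne_zero.2
    rw [Finset.prod_ne_zero_iff]
    intro q hq
    exact pow_ne_zero _ (hQQ q hq).1.ne_zero
  set Pn : ℕ → ℕ → Prop := fun m a => Node (Dp b U) N L W a ∧ mass b U L a ≠ 0 ∧ 1 ≤ m ∧ m ≤ M ∧
    m * a + E2 ≤ k0 + m * E2 ∧ k0 + E2 ≤ m * a + m * E2 with hPn
  set Gd : ℕ → ℕ → Prop := fun q a => sg b U q (a - 1) ≠ sg b U q (a + L) with hGd
  have hlow : ∀ m a, Pn m a → W ≤ a ∧ a + W ≤ N := by
    rintro m a ⟨_, _, hm1, hmM, hu, hl⟩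
    constructor
    · by_contra hcon
      push Not at hcon
      have e1 : m * (a + E2) ≤ M * (2 * W) := Nat.mul_le_mul hmM (by omega)
      have e2 : M * (2 * W) ≤ 4 * M ^ 2 * W := by nlinarith
      have e3 : m * (a + E2) = m * a + m * E2 := mul_add _ _ _
      have e4 : 0 < m * W := Nat.mul_pos hm1 (by omega)
      have e5 : m * (a + E2) + m ≤ m * (2 * W) := by
        calc m * (a + E2) + m = m * (a + E2 + 1) := by ring
          _ ≤ m * (2 * W) := Nat.mul_le_mul_left _ (by omega)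
      have e6 : m * (2 * W) ≤ M * (2 * W) := Nat.mul_le_mul_right _ hmM
      omega
    · have e1 : m * a ≤ m * (k0 + E2) := by
        have : m * (k0 + E2) = m * k0 + m * E2 := mul_add _ _ _
        have : k0 ≤ m * k0 := Nat.le_mul_of_pos_left _ hm1
        omega
      have e2 := Nat.le_of_mul_le_mul_left e1 hm1
      omega
  have hstep : ∀ q ∈ QQ, ∀ m a, Pn m a → Gd q a → m * q ^ F ≤ M →
      ∃ a', Pn (m * q ^ F) a' ∧ Gd q a' := by
    intro q hq m a hma hga hmM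
    obtain ⟨hqp, hqQ, hqb, hqW⟩ := hQQ q hq
    have : Fact q.Prime := ⟨hqp⟩
    obtain ⟨E, hEc, hEd⟩ := hE q hq
    obtain ⟨l1, l2⟩ := hlow m a hma
    obtain ⟨n1, n2, hm1, _, hu, hl⟩ := hma
    have hr : 2 ≤ q ^ F := by
      calc 2 ≤ q := hqp.two_le
        _ = q ^ 1 := (pow_one q).symm
        _ ≤ q ^ F := Nat.pow_le_pow_right hqp.pos hF
    have haZ : q ^ F * (Z + 2 * W) + (H + 1) ≤ a := by
      by_contra hcon
      push Not at hcon
      have g1 : m * a + m ≤ m * (q ^ F * (Z + 2 * W) + (H + 1)) := by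
        calc m * a + m = m * (a + 1) := by ring
          _ ≤ _ := Nat.mul_le_mul_left _ hcon
      have g2 : m * (q ^ F * (Z + 2 * W) + (H + 1)) = m * q ^ F * (Z + 2 * W) + m * (H + 1) := by
        ring
      have g3 : m * q ^ F * (Z + 2 * W) ≤ M * (Z + 2 * W) := Nat.mul_le_mul_right _ hmM
      have hmM' : m ≤ M := le_trans (Nat.le_mul_of_pos_right _ (by omega)) hmM
      have g4 : m * (H + 1) + m * E2 ≤ M * (2 * W) := by
        calc m * (H + 1) + m * E2 = m * (H + 1 + E2) := by ring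
          _ ≤ M * (2 * W) := Nat.mul_le_mul hmM' (by omega)
      have g5 : M * (Z + 2 * W) + M * (2 * W) ≤ 4 * M ^ 2 * (Z + W) := by
        calc M * (Z + 2 * W) + M * (2 * W) = M * (Z + 4 * W) := by ring
          _ ≤ M * (4 * (Z + W)) := Nat.mul_le_mul_left _ (by omega)
          _ = 4 * (M * 1) * (Z + W) := by ring
          _ ≤ 4 * (M * M) * (Z + W) := by
              apply Nat.mul_le_mul_right
              apply Nat.mul_le_mul_left
              exact Nat.mul_le_mul_left _ hM1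
          _ = 4 * M ^ 2 * (Z + W) := by ring
      omega
    obtain ⟨a', ha', hne', hra, hra'⟩ := step hgap hr hqW (sg b U q) E hEc hEd
      (fun x y hxy _ hne => sg_const b U q hqb x y hxy hne) n1 l1 l2 haZ hga
    refine ⟨a', ⟨ha', ?_, ?_, hmM, ?_, ?_⟩, hne'⟩
    · intro h0
      apply hne'
      rw [sg_ne_iff b U q hqb L a' ha'.1.1, h0]
      exact dvd_zero _
    · exact Nat.mul_pos hm1 (by omega)
    · have f1 : m * (q ^ F * a') ≤ m * (a + (L + H)) := Nat.mul_le_mul_left _ hra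
      have f2 : m * 2 * E2 ≤ m * q ^ F * E2 := Nat.mul_le_mul_right _ (Nat.mul_le_mul_left _ hr)
      have f3 : m * (L + H) ≤ m * E2 := Nat.mul_le_mul_left _ (by omega)
      have f4 : m * q ^ F * a' = m * (q ^ F * a') := mul_assoc _ _ _
      have f5 : m * (a + (L + H)) = m * a + m * (L + H) := mul_add _ _ _
      have f6 : m * 2 * E2 = m * E2 + m * E2 := by ring
      omega
    · have f1 : m * a ≤ m * (q ^ F * a' + (q ^ F * L + H)) := Nat.mul_le_mul_left _ hra'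
      have f2 : m * (q ^ F * a' + (q ^ F * L + H)) = m * q ^ F * a' + m * (q ^ F * L + H) := by ring
      have f3 : m * (q ^ F * L + H) + m * E2 ≤ m * q ^ F * E2 := by
        rw [mul_assoc, ← mul_add]
        apply Nat.mul_le_mul_left
        rw [hE2]
        nlinarith
      omega
  have hbadc : ∀ m a, Pn m a → ∀ P : Finset ℕ, P ⊆ QQ → (∀ q ∈ P, ¬ Gd q a) → P.card ≤ h := by
    intro m a hma P hP hng
    refine few_primes b hb U G hG L a Q0 h hma.1.1.1 hQ0 hma.2.1 hh P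
      (fun q hq => ⟨(hQQ q (hP hq)).1, (hQQ q (hP hq)).2.1⟩) ?_
    intro q hq
    obtain ⟨hqp, hqQ, hqb, hqW⟩ := hQQ q (hP hq)
    have : Fact q.Prime := ⟨hqp⟩
    have h3 := hng q hq
    simp only [hGd, not_not] at h3
    exact (sg_ne_iff b U q hqb L a hma.1.1.1).1 h3
  have hroot : Pn 1 k0 := ⟨hk0, hk0m, le_rfl, hM1, by omega, by omega⟩
  obtain ⟨T, hT1, hT2⟩ := tree Pn Gd QQ F M A h hF hA (fun q hq => (hQQ q hq).1) hstep hbadc
    QQ.card QQ rfl (Finset.Subset.refl _) 1 k0 hroot (by rw [one_mul]; exact hM)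
  refine hT1.trans ?_
  have hch : ∀ u, ∃ a, u ∈ T → Pn u a := by
    intro u
    by_cases hu : u ∈ T
    · obtain ⟨_, a', ha'⟩ := hT2 u hu
      rw [one_mul] at ha'
      exact ⟨a', fun _ => ha'⟩
    · exact ⟨0, fun h => absurd h hu⟩
  choose φ hφ using hch
  apply Finset.card_le_card_of_injOn φ
  · intro u hu
    have h3 := hφ u hu
    obtain ⟨h4, h5⟩ := hlow _ _ h3
    rw [Finset.mem_coe, Finset.mem_filter, Finset.mem_Icc]
    exact ⟨⟨h3.1.1.1, by omega⟩, h3.1.1.2⟩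
  · have key : ∀ u ∈ T, ∀ v ∈ T, u < v → φ u ≠ φ v := by
      intro u hu v hv huv heq
      have h3 := hφ u hu
      have h4 := hφ v hv
      rw [← heq] at h4
      set a := φ u
      obtain ⟨_, _, u1, uM, u2, u3⟩ := h3
      obtain ⟨_, _, v1, vM, v2, v3⟩ := h4
      have f1 : u * a + a ≤ v * a := by
        calc u * a + a = (u + 1) * a := by ring
          _ ≤ v * a := Nat.mul_le_mul_right _ huv
      have f2 : u * E2 ≤ M * E2 := Nat.mul_le_mul_right _ uM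
      have f3 : v * E2 ≤ M * E2 := Nat.mul_le_mul_right _ vM
      have f4 : a ≤ 2 * (M * E2) := by omega
      have f5 : k0 ≤ u * (a + E2) := by
        rw [mul_add]; omega
      have f6 : u * (a + E2) ≤ M * (2 * (M * E2) + E2) := Nat.mul_le_mul uM (by omega)
      have f7 : M * (2 * (M * E2) + E2) ≤ 3 * M ^ 2 * E2 := by nlinarith
      have f8 : 3 * M ^ 2 * E2 < 4 * M ^ 2 * W := by
        have g1 : 3 * M ^ 2 * E2 ≤ 3 * M ^ 2 * W := Nat.mul_le_mul_left _ hW.le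
        have g2 : 0 < M ^ 2 * W := Nat.mul_pos (pow_pos hM1 _) (by omega)
        nlinarith
      omega
    intro u hu v hv heq
    rcases lt_trichotomy u v with h | h | h
    · exact absurd heq (key u hu v hv h)
    · exact h
    · exact absurd heq.symm (key v hv u hu h)

end Pool.Agent.H52.NF
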