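import Pool.Agent.H52.NF.Asym

/-!
The lower bound for sequences `U k = b^k t + O(1)`.
-/

set_option autoImplicit false

namespace Pool.Agent.H52.NF

open Finset Filter Topology
open Pool.Agent.H52.NF.DC (dlt S Pol V)

theorem Gap.mono {D : ℕ → Prop} {N Z L W W' : ℕ} (h : Gap D N Z L W) (hW : W' ≤ W) :
    Gap D N Z L W' := by
  intro k l hZ hk hl hkl hlN
  rcases h k l hZ hk hl hkl hlN with h1 | h1
  · exact Or.inl h1
  · exact Or.inr (by omega)

theorem growth (f : Polynomial ℤ) (hf : f.Monic) (hirrf : Irreducible f) (hd : 2 ≤ f.natDegree)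
    (b : ℕ) (hb : 2 ≤ b) (t C0 : ℝ) (hirr : Irrational t)
    (ht : (f.map (Int.castRingHom ℝ)).eval t = 0)
    (U : ℕ → ℤ) (hU : ∀ K, |(U K : ℝ) - (b : ℝ) ^ K * t| ≤ C0) (G : ℕ)
    (hG : ∀ k, 1 ≤ k → |dlt b U k| ≤ G) :
    ∃ c : ℝ, 0 < c ∧ ∃ N0 : ℕ, ∀ N L W0 : ℕ, N0 ≤ N → 1 ≤ L → 1 ≤ W0 → W0 ≤ N →
      Gap (Dp b U) N (Nat.sqrt N + 1) L W0 →
      Real.exp (c * min (√(Real.log W0)) (Real.log W0 / L)) ≤ Dc b U N := by
  classical
  obtain ⟨q0, C, hC1, hexc⟩ := exc f hf hirrf hd b hb t C0 ht U hU G hG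
  obtain ⟨C1, hst⟩ := exists_start f hf.ne_zero b hb t C0 hirr ht U hU
  obtain ⟨Qs, hQs⟩ := primes_set
  obtain ⟨N1, hN1⟩ := dn_unbounded b hb t C0 hirr U hU 2
  obtain ⟨X, hX1, hX⟩ := log_le_eps (1 / 40) (by norm_num)
  set d := f.natDegree with hdd
  set F := d.factorial with hF
  have hF1 : 1 ≤ F := Nat.factorial_pos _
  set K : ℕ := 25 + 12 * (G + 1 + 2 * b) + Qs + (q0 + 5) ^ 2 + (32 * F) ^ 6 + ⌈X ^ 2⌉₊ with hK
  set C6 : ℕ := 3 + F + d * (C + 1) with hC6
  have hq05 : q0 * q0 ≤ (q0 + 5) ^ 2 := by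
    calc q0 * q0 ≤ (q0 + 5) * (q0 + 5) := Nat.mul_le_mul (by omega) (by omega)
      _ = (q0 + 5) ^ 2 := by ring
  set c : ℝ := 1 / (512 * K * C6 * F) with hc
  have hK1 : 1 ≤ K := by omega
  have hC61 : 1 ≤ C6 := by omega
  have hKr : (1 : ℝ) ≤ K := by exact_mod_cast hK1
  have hC6r : (1 : ℝ) ≤ C6 := by exact_mod_cast hC61
  have hFr : (1 : ℝ) ≤ F := by exact_mod_cast hF1
  have hc0 : 0 < c := by rw [hc]; positivity
  refine ⟨c, hc0, max N1 ((4 * (d + 2 + C1)) ^ 2 + 16 * (64 * d) ^ 4), ?_⟩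
  intro N L W0 hN hL hW0 hW0N hgap0
  have hNN1 : N1 ≤ N := (le_max_left _ _).trans hN
  have hNd : (4 * (d + 2 + C1)) ^ 2 + 16 * (64 * d) ^ 4 ≤ N := (le_max_right _ _).trans hN
  by_contra hcon
  push Not at hcon
  -- the number of nonzero places
  set m := Dc b U N with hm
  have hm2 : 2 ≤ m := hN1 N hNN1
  have hm2r : (2 : ℝ) ≤ m := by exact_mod_cast hm2
  set y : ℝ := Real.log (m + 1) with hy
  have hy1 : 1 ≤ y := by
    rw [hy, Real.le_log_iff_exp_le (by linarith)]
    have := Real.exp_one_lt_d9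
    linarith
  set Γ : ℝ := Real.log W0 with hΓ
  have hΓ0 : 0 ≤ Γ := Real.log_natCast_nonneg _
  have hLr : (1 : ℝ) ≤ L := by exact_mod_cast hL
  have hy2 : y ≤ 2 * (c * min (√Γ) (Γ / L)) := by
    have h1 : Real.log m < c * min (√Γ) (Γ / L) := by
      rw [← Real.log_exp (c * min (√Γ) (Γ / L))]
      exact Real.log_lt_log (by linarith) hcon
    have h2 : y ≤ 2 * Real.log m := by
      rw [hy, show 2 * Real.log m = Real.log ((m : ℝ) ^ 2) by rw [Real.log_pow]; push_cast; ring]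
      apply Real.log_le_log (by linarith)
      nlinarith
    linarith
  have hya : y ≤ 2 * c * √Γ := by
    have := mul_le_mul_of_nonneg_left (min_le_left (√Γ) (Γ / L)) hc0.le
    linarith
  have hyb : y * L ≤ 2 * c * Γ := by
    have h1 := mul_le_mul_of_nonneg_left (min_le_right (√Γ) (Γ / L)) hc0.le
    have h2 : y ≤ 2 * c * (Γ / L) := by linarith
    have h3 : 2 * c * (Γ / L) * L = 2 * c * Γ := by field_simp
    calc y * L ≤ 2 * c * (Γ / L) * L := mul_le_mul_of_nonneg_right h2 (by linarith)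
      _ = _ := h3
  have hc12 : c ≤ 1 / 2 := by
    rw [hc, div_le_div_iff₀ (by positivity) (by norm_num)]
    have h1 : (1 : ℝ) ≤ K * C6 := one_le_mul_of_one_le_of_one_le hKr hC6r
    have h2 : (1 : ℝ) ≤ K * C6 * F := one_le_mul_of_one_le_of_one_le h1 hFr
    linarith
  have hyy : y * y ≤ 2 * c * Γ := by
    have h1 : y * y ≤ (2 * c * √Γ) * (2 * c * √Γ) :=
      mul_le_mul hya hya (by linarith) (by positivity)
    have h2 : √Γ * √Γ = Γ := Real.mul_self_sqrt hΓ0
    have h3 : (2 * c * √Γ) * (2 * c * √Γ) = (2 * c) * (2 * c * Γ) := by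
      calc (2 * c * √Γ) * (2 * c * √Γ) = (2 * c) * (2 * c * (√Γ * √Γ)) := by ring
        _ = _ := by rw [h2]
    have h4 : (2 * c) * (2 * c * Γ) ≤ 1 * (2 * c * Γ) :=
      mul_le_mul_of_nonneg_right (by linarith) (by positivity)
    linarith
  -- the parameter Q
  set Q : ℕ := ⌈(K : ℝ) * max y L⌉₊ with hQ
  have hmax1 : 1 ≤ max y (L : ℝ) := le_max_of_le_left hy1
  have hQlow : (K : ℝ) * max y L ≤ Q := Nat.le_ceil _
  have hQup : (Q : ℝ) ≤ 2 * K * max y L := by
    have h1 : (Q : ℝ) < K * max y L + 1 := Nat.ceil_lt_add_one (by positivity)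
    have h2 : 1 ≤ K * max y (L : ℝ) := one_le_mul_of_one_le_of_one_le hKr hmax1
    linarith
  have hQK : K ≤ Q := by
    have : (K : ℝ) ≤ Q := (le_mul_of_one_le_right (by linarith) hmax1).trans hQlow
    exact_mod_cast this
  have hQy : (K : ℝ) * y ≤ Q := by
    exact (mul_le_mul_of_nonneg_left (le_max_left y (L : ℝ)) (by linarith)).trans hQlow
  have hQL : (K : ℝ) * L ≤ Q := by
    exact (mul_le_mul_of_nonneg_left (le_max_right y (L : ℝ)) (by linarith)).trans hQlow
  have hQyΓ : (Q : ℝ) * y ≤ 4 * K * c * Γ := by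
    have h1 : max y (L : ℝ) * y ≤ 2 * c * Γ := by
      rcases max_cases y (L : ℝ) with ⟨h, _⟩ | ⟨h, _⟩
      · rw [h]; exact hyy
      · rw [h]; linarith
    calc (Q : ℝ) * y ≤ 2 * K * max y L * y := mul_le_mul_of_nonneg_right hQup (by linarith)
      _ = 2 * K * (max y L * y) := by ring
      _ ≤ 2 * K * (2 * c * Γ) := mul_le_mul_of_nonneg_left h1 (by positivity)
      _ = _ := by ring
  have hKc1 : 4 * K * c * C6 ≤ 1 / 4 := by
    have : 4 * K * c * C6 = 1 / (128 * F) := by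
      rw [hc]; field_simp; norm_num
    rw [this, div_le_div_iff₀ (by positivity) (by norm_num)]
    linarith
  have hKc2 : 4 * K * c * (32 * F) ≤ 1 := by
    have : 4 * K * c * (32 * F) = 1 / (4 * C6) := by
      rw [hc]; field_simp; norm_num
    rw [this, div_le_one (by positivity)]
    linarith
  have hNpos : 0 < N := by omega
  set ℓ : ℝ := Real.log N with hℓ
  have hΓℓ : Γ ≤ ℓ := Real.log_le_log (by exact_mod_cast hW0) (by exact_mod_cast hW0N)
  have hQ1 : 25 ≤ Q := by omega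
  have hQr : (25 : ℝ) ≤ Q := by exact_mod_cast hQ1
  have hQQy : (Q : ℝ) ≤ Q * y := le_mul_of_one_le_right (by linarith) hy1
  have hQℓ : 32 * F * (Q : ℝ) * y ≤ ℓ := by
    have h1 : 32 * F * (Q : ℝ) * y ≤ 32 * F * (4 * K * c * Γ) := by
      have := mul_le_mul_of_nonneg_left hQyΓ (show (0 : ℝ) ≤ 32 * F by positivity)
      calc 32 * F * (Q : ℝ) * y = 32 * F * ((Q : ℝ) * y) := by ring
        _ ≤ _ := this
    have h2 : 32 * F * (4 * K * c * Γ) = (4 * K * c * (32 * F)) * Γ := by ring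
    have h3 : (4 * K * c * (32 * F)) * Γ ≤ 1 * Γ := mul_le_mul_of_nonneg_right hKc2 hΓ0
    linarith
  have hLQ : L ≤ Q := by
    have : (L : ℝ) ≤ Q := (le_mul_of_one_le_left (by linarith) hKr).trans hQL
    exact_mod_cast this
  have hlogQ0 : 0 < Real.log Q := Real.log_pos (by linarith)
  have hlogQ : Real.log Q ≤ Q := (Real.log_le_sub_one_of_pos (by linarith)).trans (by linarith)
  -- H
  set H : ℕ := Q ^ F * (C * (m + 1)) ^ (d * Q) with hH
  have hCm : 1 ≤ C * (m + 1) := Nat.mul_pos hC1 (by omega)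
  have hHQ : Q ^ F ≤ H := Nat.le_mul_of_pos_right _ (pow_pos hCm _)
  set W : ℕ := 3 * H + (Q ^ F + 2) * L + 2 with hW
  have hHpos : 0 < H := by
    rw [hH]; positivity
  have hWH : W ≤ H * Q ^ 3 := by
    have h1 : 1 ≤ Q ^ F := Nat.one_le_pow _ _ (by omega)
    have h2 : (Q ^ F + 2) * L ≤ 3 * H * Q := by
      calc (Q ^ F + 2) * L ≤ (3 * Q ^ F) * Q := Nat.mul_le_mul (by omega) hLQ
        _ ≤ 3 * H * Q := Nat.mul_le_mul_right _ (Nat.mul_le_mul_left _ hHQ)
    have h3 : 2 ≤ 2 * H := by omega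
    have h4 : 5 + 3 * Q ≤ Q ^ 3 := by
      calc 5 + 3 * Q ≤ Q * 25 * 1 := by omega
        _ ≤ Q * Q * Q := Nat.mul_le_mul (Nat.mul_le_mul_left _ hQ1) (by omega)
        _ = Q ^ 3 := by ring
    calc W ≤ 3 * H + 3 * H * Q + 2 * H := by omega
      _ = H * (5 + 3 * Q) := by ring
      _ ≤ H * Q ^ 3 := Nat.mul_le_mul_left _ h4
  have hWpos : 0 < W := by omega
  have hlogW : Real.log W ≤ C6 * (Q * y) := by
    have h1 : Real.log W ≤ Real.log (H * Q ^ 3 : ℝ) :=
      Real.log_le_log (by exact_mod_cast hWpos) (by exact_mod_cast hWH)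
    have hHr : (H : ℝ) = (Q : ℝ) ^ F * ((C : ℝ) * (m + 1)) ^ (d * Q) := by
      rw [hH]; push_cast; ring
    have hCr : (1 : ℝ) ≤ C := by exact_mod_cast hC1
    have h2 : Real.log (H * Q ^ 3 : ℝ) = (F + 3) * Real.log Q + (d * Q) * (Real.log C + y) := by
      rw [hHr, Real.log_mul (by positivity) (by positivity), Real.log_mul (by positivity)
        (by positivity), Real.log_pow, Real.log_pow, Real.log_pow, Real.log_mul (by positivity)
        (by positivity)]
      push_cast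
      ring
    have h3 : Real.log C ≤ C := (Real.log_le_sub_one_of_pos (by linarith)).trans (by linarith)
    have h4 : (F + 3 : ℝ) * Real.log Q ≤ (F + 3) * (Q * y) :=
      mul_le_mul_of_nonneg_left (hlogQ.trans hQQy) (by positivity)
    have h5 : Real.log C + y ≤ (C + 1) * y := by
      have : (C : ℝ) ≤ C * y := le_mul_of_one_le_right (by positivity) hy1
      calc Real.log C + y ≤ C * y + y := by linarith
        _ = (C + 1) * y := by ring
    have h6 : (d * Q : ℝ) * (Real.log C + y) ≤ (d * Q) * ((C + 1) * y) :=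
      mul_le_mul_of_nonneg_left h5 (by positivity)
    have h7 : ((C6 : ℕ) : ℝ) = 3 + F + d * (C + 1) := by rw [hC6]; push_cast; ring
    rw [h7]
    calc Real.log W ≤ (F + 3) * (Q * y) + (d * Q) * ((C + 1) * y) := by linarith
      _ = _ := by ring
  have hlogW4 : Real.log W ≤ Γ / 4 := by
    calc Real.log W ≤ C6 * (Q * y) := hlogW
      _ ≤ C6 * (4 * K * c * Γ) := mul_le_mul_of_nonneg_left hQyΓ (by positivity)
      _ = (4 * K * c * C6) * Γ := by ring
      _ ≤ 1 / 4 * Γ := mul_le_mul_of_nonneg_right hKc1 hΓ0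
      _ = Γ / 4 := by ring
  have hWW0 : W ≤ W0 := by
    have h1 : Real.log W ≤ Real.log W0 := by linarith
    have h2 := (Real.log_le_log_iff (by exact_mod_cast hWpos) (by exact_mod_cast hW0)).1 h1
    exact_mod_cast h2
  have hW4 : W ^ 4 ≤ N := by
    have h1 : Real.log ((W : ℝ) ^ 4) ≤ Real.log N := by
      rw [Real.log_pow]; push_cast; linarith
    have h2 := (Real.log_le_log_iff (by positivity) (by exact_mod_cast hNpos)).1 h1
    exact_mod_cast h2
  set Z : ℕ := Nat.sqrt N + 1 with hZ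
  have hgap : Gap (Dp b U) N Z L W := hgap0.mono hWW0
  have hLW : 2 * L + H < W := by
    have : (Q ^ F + 2) * L = Q ^ F * L + 2 * L := by ring
    omega
  -- the primes
  obtain ⟨QQ, hQQ1, hQQ2, hQQ3⟩ := hQs Q (by omega)
  -- A
  set A : ℕ := ⌊ℓ / (16 * F * Q)⌋₊ with hA
  have hFQ : (0 : ℝ) < 16 * F * Q := by positivity
  have hratio : 2 ≤ ℓ / (16 * F * Q) := by
    rw [le_div_iff₀ hFQ]
    have : 32 * F * (Q : ℝ) ≤ 32 * F * (Q : ℝ) * y := le_mul_of_one_le_right (by positivity) hy1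
    linarith
  have hℓ0 : 0 ≤ ℓ := hΓ0.trans hΓℓ
  have hAup : (A : ℝ) ≤ ℓ / (16 * F * Q) := Nat.floor_le (by positivity)
  have hAlow : ℓ / (32 * F * Q) ≤ A := by
    have h1 : ℓ / (16 * F * Q) < A + 1 := Nat.lt_floor_add_one _
    have h2 : ℓ / (32 * F * Q) = ℓ / (16 * F * Q) / 2 := by
      field_simp; ring
    rw [h2]
    linarith
  have hA2 : 2 ≤ A := Nat.le_floor (by exact_mod_cast hratio)
  -- M
  set M : ℕ := ∏ q ∈ QQ, q ^ (F * (A - 1)) with hM
  have hMpos : 0 < M := by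
    apply Nat.pos_of_ne_zero
    rw [hM, Finset.prod_ne_zero_iff]
    intro q hq
    exact pow_ne_zero _ (hQQ1 q hq).1.ne_zero
  have hlogM : Real.log M ≤ ℓ / 8 := by
    have h1 : Real.log M = ((F * (A - 1) : ℕ) : ℝ) * ∑ q ∈ QQ, Real.log q := by
      rw [hM]
      push_cast
      rw [Real.log_prod (fun q hq => by
        have := (hQQ1 q hq).1.pos
        positivity), Finset.mul_sum]
      apply Finset.sum_congr rfl
      intro q _
      rw [Real.log_pow]
      push_cast
      ring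
    rw [h1]
    have h2 : ((F * (A - 1) : ℕ) : ℝ) ≤ F * A := by
      have : F * (A - 1) ≤ F * A := Nat.mul_le_mul_left _ (by omega)
      exact_mod_cast this
    have h3 : 0 ≤ ∑ q ∈ QQ, Real.log (q : ℝ) :=
      Finset.sum_nonneg fun q _ => Real.log_natCast_nonneg q
    calc ((F * (A - 1) : ℕ) : ℝ) * ∑ q ∈ QQ, Real.log (q : ℝ) ≤ (F * A) * (2 * Q) :=
          mul_le_mul h2 hQQ3 h3 (by positivity)
      _ ≤ (F * (ℓ / (16 * F * Q))) * (2 * Q) := by
          apply mul_le_mul_of_nonneg_right _ (by positivity)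
          exact mul_le_mul_of_nonneg_left hAup (by positivity)
      _ = ℓ / 8 := by field_simp; ring
  have hM8 : M ^ 8 ≤ N := by
    have h1 : Real.log ((M : ℝ) ^ 8) ≤ Real.log N := by
      rw [Real.log_pow]; push_cast; linarith
    have h2 := (Real.log_le_log_iff (by positivity) (by exact_mod_cast hNpos)).1 h1
    exact_mod_cast h2
  have h16 : 16 * (64 * d) ^ 4 ≤ N := by omega
  have h64W : 64 * d * M ^ 2 * W ≤ N := by
    have h1 : (64 * d) ^ 4 ≤ N := by omega
    have h2 : (64 * d * M ^ 2 * W) ^ 4 ≤ N ^ 4 := by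
      calc (64 * d * M ^ 2 * W) ^ 4 = (64 * d) ^ 4 * (M ^ 8) * W ^ 4 := by ring
        _ ≤ N * N * N := by
            apply Nat.mul_le_mul (Nat.mul_le_mul h1 hM8) hW4
        _ ≤ N * N * N * N := Nat.le_mul_of_pos_right _ hNpos
        _ = N ^ 4 := by ring
    exact (Nat.pow_le_pow_iff_left (by norm_num)).1 h2
  have hZ4 : Z ^ 4 ≤ 16 * N ^ 2 := by
    have h1 : 1 ≤ Nat.sqrt N := by rw [Nat.le_sqrt]; omega
    have h2 : Nat.sqrt N * Nat.sqrt N ≤ N := Nat.sqrt_le N
    calc Z ^ 4 ≤ (2 * Nat.sqrt N) ^ 4 := Nat.pow_le_pow_left (by omega) 4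
      _ = 16 * (Nat.sqrt N * Nat.sqrt N) ^ 2 := by ring
      _ ≤ 16 * N ^ 2 := Nat.mul_le_mul_left _ (Nat.pow_le_pow_left h2 2)
  have h64Z : 64 * d * M ^ 2 * Z ≤ N := by
    have h2 : (64 * d * M ^ 2 * Z) ^ 4 ≤ N ^ 4 := by
      calc (64 * d * M ^ 2 * Z) ^ 4 = (64 * d) ^ 4 * (M ^ 8) * Z ^ 4 := by ring
        _ ≤ (64 * d) ^ 4 * N * (16 * N ^ 2) := by
            apply Nat.mul_le_mul (Nat.mul_le_mul_left _ hM8) hZ4
        _ = 16 * (64 * d) ^ 4 * N ^ 3 := by ring
        _ ≤ N * N ^ 3 := Nat.mul_le_mul_right _ h16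
        _ = N ^ 4 := by ring
    exact (Nat.pow_le_pow_iff_left (by norm_num)).1 h2
  have h32 : 32 * d * M ^ 2 * (Z + W) ≤ N := by
    have h1 : 2 * (32 * d * M ^ 2 * (Z + W)) = 64 * d * M ^ 2 * Z + 64 * d * M ^ 2 * W := by ring
    omega
  have h4d : 4 * (d + 2 + C1) * W ≤ N := by
    have h1 : (4 * (d + 2 + C1)) ^ 2 ≤ N := by omega
    have h3 : W ^ 2 ≤ N := by
      refine le_trans ?_ hW4
      exact Nat.pow_le_pow_right hWpos (by norm_num)
    have h2 : (4 * (d + 2 + C1) * W) ^ 2 ≤ N ^ 2 := by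
      calc (4 * (d + 2 + C1) * W) ^ 2 = (4 * (d + 2 + C1)) ^ 2 * W ^ 2 := by ring
        _ ≤ N * N := Nat.mul_le_mul h1 h3
        _ = N ^ 2 := by ring
    exact (Nat.pow_le_pow_iff_left (by norm_num)).1 h2
  -- the start
  set R0 := N / (8 * d) with hR0
  have hdR : d * (R0 + L) + C1 ≤ N / 8 + (d + C1) * W := by
    have h1 : d * R0 ≤ N / 8 := by
      rw [hR0, Nat.le_div_iff_mul_le (by norm_num)]
      have := Nat.div_mul_le_self N (8 * d)
      calc d * (N / (8 * d)) * 8 = N / (8 * d) * (8 * d) := by ring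
        _ ≤ N := this
    have h2 : d * L ≤ d * W := Nat.mul_le_mul_left _ (by omega)
    have h3 : C1 ≤ C1 * W := Nat.le_mul_of_pos_right _ hWpos
    rw [mul_add, add_mul]
    omega
  have hexp : 4 * (d + 2 + C1) * W = 4 * ((d + C1) * W) + 8 * W := by ring
  have hR0low : 4 * M ^ 2 * (Z + W) ≤ R0 := by
    rw [hR0, Nat.le_div_iff_mul_le (by omega)]
    calc 4 * M ^ 2 * (Z + W) * (8 * d) = 32 * d * M ^ 2 * (Z + W) := by ring
      _ ≤ N := h32
  have hZWR0 : Z + W ≤ R0 := by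
    refine le_trans ?_ hR0low
    apply Nat.le_mul_of_pos_left
    positivity
  obtain ⟨k0, hk0, hk0R, hk0T, hk0m⟩ := hst N Z L W R0 hgap (by omega) hZWR0 (by omega)
  have hfin := finite_main b hb U G hG N Z L W H M A (QQ.card / 2) F (Nat.sqrt Q) QQ hgap hF1
    (by omega) (by
      rw [Nat.le_sqrt]; omega) (by
      intro q hq
      obtain ⟨h1, h2, h3⟩ := hQQ1 q hq
      refine ⟨h1, h2, (hexc N q h1 ?_).1, ?_⟩
      · refine le_trans ?_ h2
        rw [Nat.le_sqrt]
        have : q0 * q0 ≤ (q0 + 5) ^ 2 := hq05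
        omega
      · have h4 : q ^ F ≤ Q ^ F := Nat.pow_le_pow_left h3 _
        have h5 : (q ^ F + 2) * L ≤ (Q ^ F + 2) * L := Nat.mul_le_mul_right _ (by omega)
        omega) (by
      intro q hq
      obtain ⟨h1, h2, h3⟩ := hQQ1 q hq
      obtain ⟨_, E, hE1, hE2⟩ := hexc N q h1 (by
        refine le_trans ?_ h2
        rw [Nat.le_sqrt]
        have : q0 * q0 ≤ (q0 + 5) ^ 2 := hq05
        omega)
      refine ⟨E, hE1.trans ?_, hE2⟩
      rw [hH]
      apply Nat.mul_le_mul (Nat.pow_le_pow_left h3 _)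
      exact Nat.pow_le_pow_right hCm (Nat.mul_le_mul_left _ h3)) (by
      -- few primes divide the mass
      set s := Nat.sqrt Q with hs
      have hs5 : 5 ≤ s := by
        rw [hs, Nat.le_sqrt]
        omega
      have hs3 : Q ≤ s ^ 3 := by
        have h1 : Q < (s + 1) * (s + 1) := Nat.lt_succ_sqrt Q
        calc Q ≤ (s + 1) * (s + 1) := h1.le
          _ ≤ (2 * s) * (2 * s) := Nat.mul_le_mul (by omega) (by omega)
          _ = 4 * (s * s) := by ring
          _ ≤ s * (s * s) := Nat.mul_le_mul_right _ (by omega)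
          _ = s ^ 3 := by ring
      have hs5r : (5 : ℝ) ≤ s := by exact_mod_cast hs5
      have hlogs : Real.log Q / 3 ≤ Real.log s := by
        have h1 : Real.log Q ≤ Real.log ((s : ℝ) ^ 3) :=
          Real.log_le_log (by linarith) (by exact_mod_cast hs3)
        rw [Real.log_pow] at h1
        push_cast at h1
        linarith
      have hcard : (Q : ℝ) / (4 * Real.log Q) ≤ ((QQ.card / 2 + 1 : ℕ) : ℝ) := by
        have h1 : (QQ.card : ℝ) ≤ 2 * ((QQ.card / 2 + 1 : ℕ) : ℝ) := by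
          have : QQ.card ≤ 2 * (QQ.card / 2 + 1) := by omega
          exact_mod_cast this
        have h2 : (Q : ℝ) / (4 * Real.log Q) = Q / (2 * Real.log Q) / 2 := by
          field_simp; norm_num
        rw [h2]; linarith
      have hlogs0 : 0 < Real.log s := Real.log_pos (by linarith)
      have hright : (Q : ℝ) / 12 ≤ ((QQ.card / 2 + 1 : ℕ) : ℝ) * Real.log s := by
        calc (Q : ℝ) / 12 = (Q : ℝ) / (4 * Real.log Q) * (Real.log Q / 3) := by
              field_simp; norm_num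
          _ ≤ _ := mul_le_mul hcard hlogs (by positivity) (by positivity)
      have hbr : (2 : ℝ) ≤ b := by exact_mod_cast hb
      have hleft : Real.log (((G + 1) * b ^ (L + 1) : ℕ) : ℝ) ≤ (G + 1 + 2 * b) * L := by
        push_cast
        rw [Real.log_mul (by positivity) (by positivity), Real.log_pow]
        push_cast
        have h1 : Real.log ((G : ℝ) + 1) ≤ G + 1 :=
          (Real.log_le_sub_one_of_pos (by positivity)).trans (by linarith)
        have h2 : Real.log (b : ℝ) ≤ b :=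
          (Real.log_le_sub_one_of_pos (by linarith)).trans (by linarith)
        have h3 : ((L : ℝ) + 1) * Real.log b ≤ (2 * L) * b :=
          mul_le_mul (by linarith) h2 (Real.log_nonneg (by linarith)) (by positivity)
        have h4 : (G : ℝ) + 1 ≤ (G + 1) * L := le_mul_of_one_le_right (by positivity) hLr
        linarith
      have hKb : (12 : ℝ) * (G + 1 + 2 * b) ≤ K := by
        have : 12 * (G + 1 + 2 * b) ≤ K := by omega
        exact_mod_cast this
      have hfinal : Real.log (((G + 1) * b ^ (L + 1) : ℕ) : ℝ) ≤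
          Real.log ((s ^ (QQ.card / 2 + 1) : ℕ) : ℝ) := by
        refine hleft.trans ?_
        push_cast
        rw [Real.log_pow]
        refine le_trans ?_ hright
        have h1 : 12 * ((G + 1 + 2 * b : ℝ)) * L ≤ K * L :=
          mul_le_mul_of_nonneg_right hKb (by linarith)
        linarith
      have h1 := (Real.log_le_log_iff (by positivity) (by positivity)).1 hfinal
      have h2 : (G + 1) * b ^ (L + 1) ≤ s ^ (QQ.card / 2 + 1) := by exact_mod_cast h1
      refine le_trans ?_ h2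
      exact Nat.mul_le_mul_right _ (by omega)) le_rfl k0 hk0 hk0m (hR0low.trans hk0R)
      (by omega) hLW
  -- the final contradiction
  have hfin2 : ((QQ.card - QQ.card / 2 : ℕ) : ℝ) * Real.log A ≤ y := by
    have h1 : Real.log ((A ^ (QQ.card - QQ.card / 2) : ℕ) : ℝ) ≤ y := by
      rw [hy]
      apply Real.log_le_log
      · have : 0 < A ^ (QQ.card - QQ.card / 2) := pow_pos (by omega) _
        exact_mod_cast this
      · have : A ^ (QQ.card - QQ.card / 2) ≤ m := hfin
        have h2 : ((A ^ (QQ.card - QQ.card / 2) : ℕ) : ℝ) ≤ m := by exact_mod_cast this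
        linarith
    push_cast at h1
    rw [Real.log_pow] at h1
    exact h1
  have hA2r : (2 : ℝ) ≤ A := by exact_mod_cast hA2
  have hlogA0 : 0 < Real.log A := Real.log_pos (by linarith)
  have hcard2 : (Q : ℝ) / (4 * Real.log Q) ≤ ((QQ.card - QQ.card / 2 : ℕ) : ℝ) := by
    have h1 : (QQ.card : ℝ) ≤ 2 * ((QQ.card - QQ.card / 2 : ℕ) : ℝ) := by
      have : QQ.card ≤ 2 * (QQ.card - QQ.card / 2) := by omega
      exact_mod_cast this
    have h2 : (Q : ℝ) / (4 * Real.log Q) = Q / (2 * Real.log Q) / 2 := by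
      field_simp; norm_num
    rw [h2]; linarith
  have hmain : (Q : ℝ) / (4 * Real.log Q) * Real.log A ≤ y :=
    (mul_le_mul_of_nonneg_right hcard2 hlogA0.le).trans hfin2
  have hmain2 : (Q : ℝ) * Real.log A ≤ 4 * Real.log Q * y := by
    have h1 : (Q : ℝ) / (4 * Real.log Q) * Real.log A = Q * Real.log A / (4 * Real.log Q) := by ring
    rw [h1, div_le_iff₀ (by positivity)] at hmain
    linarith
  rcases le_or_gt ((Q : ℝ) ^ 4) (ℓ ^ 3) with hcase | hcase
  · -- `A` is at least a power of `Q`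
    have h1 : (Q : ℝ) / (32 * F) ^ 3 ≤ (A : ℝ) ^ 3 := by
      calc (Q : ℝ) / (32 * F) ^ 3 = (Q : ℝ) ^ 4 / ((32 * F) ^ 3 * Q ^ 3) := by field_simp
        _ ≤ ℓ ^ 3 / ((32 * F) ^ 3 * Q ^ 3) := by
            apply div_le_div_of_nonneg_right hcase (by positivity)
        _ = (ℓ / (32 * F * Q)) ^ 3 := by rw [div_pow]; ring
        _ ≤ (A : ℝ) ^ 3 := pow_le_pow_left₀ (by positivity) hAlow 3
    have h2 : √(Q : ℝ) ≤ (Q : ℝ) / (32 * F) ^ 3 := by
      rw [le_div_iff₀ (by positivity)]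
      have h3 : ((32 * F : ℝ)) ^ 3 ≤ √Q := by
        apply Real.le_sqrt_of_sq_le
        have : (32 * F) ^ 6 ≤ Q := by omega
        calc (((32 * F : ℝ)) ^ 3) ^ 2 = (((32 * F) ^ 6 : ℕ) : ℝ) := by push_cast; ring
          _ ≤ Q := by exact_mod_cast this
      have h4 : √(Q : ℝ) * √Q = Q := Real.mul_self_sqrt (by positivity)
      calc √(Q : ℝ) * (32 * F) ^ 3 ≤ √Q * √Q := mul_le_mul_of_nonneg_left h3 (Real.sqrt_nonneg _)
        _ = Q := h4
    have h3 : Real.log Q / 2 ≤ 3 * Real.log A := by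
      have h4 : Real.log (√(Q : ℝ)) ≤ Real.log ((A : ℝ) ^ 3) :=
        Real.log_le_log (by positivity) (h2.trans h1)
      rw [Real.log_sqrt (by positivity), Real.log_pow] at h4
      push_cast at h4
      linarith
    have h4 : (Q : ℝ) * (Real.log Q / 6) ≤ 4 * Real.log Q * y := by
      refine le_trans ?_ hmain2
      apply mul_le_mul_of_nonneg_left _ (by positivity)
      linarith
    have h5 : (Q : ℝ) ≤ 24 * y := by
      have h6 : Real.log Q * Q ≤ Real.log Q * (24 * y) := by linarith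
      exact le_of_mul_le_mul_left h6 hlogQ0
    have h6 : (25 : ℝ) * y ≤ Q := by
      have : (25 : ℝ) ≤ K := by
        have : 25 ≤ K := by omega
        exact_mod_cast this
      exact (mul_le_mul_of_nonneg_right this (by linarith)).trans hQy
    linarith
  · -- `y` is small
    have h1 : (y : ℝ) ^ 3 ≤ Q := by
      have h2 : (Q : ℝ) * y ≤ ℓ := by
        have : (Q : ℝ) * y ≤ 32 * F * (Q * y) :=
          le_mul_of_one_le_left (by positivity) (by linarith)
        linarith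
      have h3 : (Q * y) ^ 3 ≤ ℓ ^ 3 := pow_le_pow_left₀ (by positivity) h2 3
      have h4 : (Q : ℝ) ^ 3 * y ^ 3 ≤ (Q : ℝ) ^ 3 * Q := by
        calc (Q : ℝ) ^ 3 * y ^ 3 = (Q * y) ^ 3 := by ring
          _ ≤ (Q : ℝ) ^ 4 := by linarith
          _ = _ := by ring
      exact le_of_mul_le_mul_left h4 (by positivity)
    have h2 : Real.log Q ≤ 1 / 20 * √Q := by
      have h3 := hX (√Q) (by
        apply Real.le_sqrt_of_sq_le
        refine (Nat.le_ceil _).trans ?_
        have : ⌈X ^ 2⌉₊ ≤ Q := by omega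
        exact_mod_cast this)
      rw [Real.log_sqrt (by positivity)] at h3
      linarith
    have h3 : Real.log 2 ≤ Real.log A := Real.log_le_log (by norm_num) hA2r
    have h4 : (Q : ℝ) * Real.log 2 ≤ 4 * (1 / 20 * √Q) * y := by
      calc (Q : ℝ) * Real.log 2 ≤ Q * Real.log A := mul_le_mul_of_nonneg_left h3 (by positivity)
        _ ≤ 4 * Real.log Q * y := hmain2
        _ ≤ 4 * (1 / 20 * √Q) * y := by
            apply mul_le_mul_of_nonneg_right _ (by linarith)
            linarith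
    -- `√Q ≤ y`
    have h5 : √(Q : ℝ) * √Q = Q := Real.mul_self_sqrt (by positivity)
    have h6 : (0 : ℝ) < √Q := Real.sqrt_pos.2 (by linarith)
    have h7 : √(Q : ℝ) * Real.log 2 ≤ y / 5 := by
      have h8 : √(Q : ℝ) * (√Q * Real.log 2) ≤ √Q * (y / 5) := by
        calc √(Q : ℝ) * (√Q * Real.log 2) = (√Q * √Q) * Real.log 2 := by ring
          _ = Q * Real.log 2 := by rw [h5]
          _ ≤ 4 * (1 / 20 * √Q) * y := h4
          _ = _ := by ring
      exact le_of_mul_le_mul_left h8 h6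
    have h8 := Real.log_two_gt_d9
    have h9 : √(Q : ℝ) ≤ y / 3 := by
      have := mul_le_mul_of_nonneg_left h8.le h6.le
      linarith
    have h10 : √(Q : ℝ) * √Q ≤ (y / 3) * (y / 3) :=
      mul_le_mul h9 h9 h6.le (by linarith)
    have h11 : y * y * 1 ≤ y * y * y := mul_le_mul_of_nonneg_left hy1 (by positivity)
    have h12 : 1 * 1 ≤ y * y := mul_le_mul hy1 hy1 (by norm_num) (by linarith)
    have h13 : y ^ 3 = y * y * y := by ring
    have h14 : (y / 3) * (y / 3) = y * y / 9 := by ring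
    rw [h5, h14] at h10
    rw [h13] at h1
    linarith

end Pool.Agent.H52.NF
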