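import Mathlib

/-!
Basic inequalities for sparse expansions (copied from the library: Pool.Graph.R_seed8.H393R2.DC.Base
and Rel, originally by helper323 of an earlier run).
-/

set_option autoImplicit false

namespace Pool.Agent.H52.NF.DC

open Polynomial Finset

/-- the sum of the absolute values of the coefficients of an integer polynomial -/
noncomputable def n1 (P : ℤ[X]) : ℤ := P.sum fun _ a => |a|

lemma n1_nonneg (P : ℤ[X]) : 0 ≤ n1 P := by
  unfold n1
  rw [Polynomial.sum_def]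
  exact Finset.sum_nonneg fun _ _ => abs_nonneg _

lemma sum_abs_coeff_le (P : ℤ[X]) (s : Finset ℕ) : ∑ i ∈ s, |P.coeff i| ≤ n1 P := by
  unfold n1
  rw [Polynomial.sum_def]
  calc ∑ i ∈ s, |P.coeff i| = ∑ i ∈ s ∩ P.support, |P.coeff i| := by
        symm
        apply Finset.sum_subset Finset.inter_subset_left
        intro i hi hi'
        have : i ∉ P.support := fun h => hi' (Finset.mem_inter.2 ⟨hi, h⟩)
        rw [Polynomial.notMem_support_iff.1 this]; simp
    _ ≤ ∑ i ∈ P.support, |P.coeff i| :=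
        Finset.sum_le_sum_of_subset_of_nonneg Finset.inter_subset_right
          fun _ _ _ => abs_nonneg _

lemma n1_eq_of_support_subset (P : ℤ[X]) (s : Finset ℕ) (h : P.support ⊆ s) :
    n1 P = ∑ i ∈ s, |P.coeff i| := by
  unfold n1
  rw [Polynomial.sum_def]
  apply Finset.sum_subset h
  intro i _ hi
  rw [Polynomial.notMem_support_iff.1 hi]; simp

lemma n1_add_le (P Q : ℤ[X]) : n1 (P + Q) ≤ n1 P + n1 Q := by
  have h1 := n1_eq_of_support_subset (P + Q) (P.support ∪ Q.support) Polynomial.support_add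
  have h2 := n1_eq_of_support_subset P (P.support ∪ Q.support) Finset.subset_union_left
  have h3 := n1_eq_of_support_subset Q (P.support ∪ Q.support) Finset.subset_union_right
  rw [h1, h2, h3, ← Finset.sum_add_distrib]
  apply Finset.sum_le_sum
  intro i _
  rw [Polynomial.coeff_add]
  exact abs_add_le _ _

lemma n1_sum_le {ι : Type} (s : Finset ι) (f : ι → ℤ[X]) :
    n1 (∑ i ∈ s, f i) ≤ ∑ i ∈ s, n1 (f i) := by
  classical
  induction s using Finset.induction_on with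
  | empty => simp [n1]
  | insert a s ha ih =>
    rw [Finset.sum_insert ha, Finset.sum_insert ha]
    exact (n1_add_le _ _).trans (by linarith)

lemma n1_monomial (k : ℕ) (a : ℤ) : n1 (monomial k a) = |a| := by
  unfold n1
  rw [Polynomial.sum_monomial_index]
  simp

lemma n1_mul_le (P Q : ℤ[X]) : n1 (P * Q) ≤ n1 P * n1 Q := by
  have h : P * Q = ∑ i ∈ P.support, ∑ j ∈ Q.support,
      monomial (i + j) (P.coeff i * Q.coeff j) := by
    conv_lhs => rw [P.as_sum_support, Q.as_sum_support]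
    rw [Finset.sum_mul_sum]
    apply Finset.sum_congr rfl
    intro i _
    apply Finset.sum_congr rfl
    intro j _
    rw [Polynomial.monomial_mul_monomial]
  rw [h]
  calc n1 (∑ i ∈ P.support, ∑ j ∈ Q.support, monomial (i + j) (P.coeff i * Q.coeff j))
      ≤ ∑ i ∈ P.support, n1 (∑ j ∈ Q.support, monomial (i + j) (P.coeff i * Q.coeff j)) :=
        n1_sum_le _ _
    _ ≤ ∑ i ∈ P.support, ∑ j ∈ Q.support, n1 (monomial (i + j) (P.coeff i * Q.coeff j)) :=
        Finset.sum_le_sum fun i _ => n1_sum_le _ _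
    _ = ∑ i ∈ P.support, ∑ j ∈ Q.support, |P.coeff i| * |Q.coeff j| := by
        apply Finset.sum_congr rfl
        intro i _
        apply Finset.sum_congr rfl
        intro j _
        rw [n1_monomial, abs_mul]
    _ = n1 P * n1 Q := by
        unfold n1
        rw [Polynomial.sum_def, Polynomial.sum_def, Finset.sum_mul_sum]

lemma n1_C (a : ℤ) : n1 (C a) = |a| := by
  rw [← Polynomial.monomial_zero_left, n1_monomial]

lemma n1_one : n1 (1 : ℤ[X]) = 1 := by
  rw [← Polynomial.C_1, n1_C]; simp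

lemma n1_pow_le (P : ℤ[X]) (k : ℕ) : n1 (P ^ k) ≤ (1 + n1 P) ^ k := by
  induction k with
  | zero => simp [n1_one]
  | succ k ih =>
    rw [pow_succ, pow_succ]
    have h0 := n1_nonneg P
    calc n1 (P ^ k * P) ≤ n1 (P ^ k) * n1 P := n1_mul_le _ _
      _ ≤ (1 + n1 P) ^ k * (1 + n1 P) := by
        apply mul_le_mul ih (by linarith) h0 (by positivity)

lemma n1_comp_le (F P : ℤ[X]) : n1 (F.comp P) ≤ n1 F * (1 + n1 P) ^ F.natDegree := by
  have h0 := n1_nonneg P
  have h : F.comp P = ∑ i ∈ F.support, C (F.coeff i) * P ^ i := by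
    rw [Polynomial.comp, Polynomial.eval₂_eq_sum, Polynomial.sum_def]
  rw [h]
  calc n1 (∑ i ∈ F.support, C (F.coeff i) * P ^ i)
      ≤ ∑ i ∈ F.support, n1 (C (F.coeff i) * P ^ i) := n1_sum_le _ _
    _ ≤ ∑ i ∈ F.support, |F.coeff i| * (1 + n1 P) ^ F.natDegree := by
        apply Finset.sum_le_sum
        intro i hi
        calc n1 (C (F.coeff i) * P ^ i) ≤ n1 (C (F.coeff i)) * n1 (P ^ i) := n1_mul_le _ _
          _ ≤ |F.coeff i| * (1 + n1 P) ^ F.natDegree := by
            rw [n1_C]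
            apply mul_le_mul_of_nonneg_left _ (abs_nonneg _)
            exact (n1_pow_le P i).trans
              (pow_le_pow_right₀ (by linarith) (Polynomial.le_natDegree_of_mem_supp _ hi))
    _ = n1 F * (1 + n1 P) ^ F.natDegree := by
        rw [show n1 F = ∑ i ∈ F.support, |F.coeff i| from by
          unfold n1; rw [Polynomial.sum_def], Finset.sum_mul]

/-- the integer `∑_{n ≤ R} G_n b^{R-n}` -/
noncomputable def S (b : ℕ) (G : ℤ[X]) (R : ℕ) : ℤ :=
  ∑ n ∈ range (R + 1), G.coeff n * (b : ℤ) ^ (R - n)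

lemma S_succ (b : ℕ) (G : ℤ[X]) (R : ℕ) :
    S b G (R + 1) = (b : ℤ) * S b G R + G.coeff (R + 1) := by
  unfold S
  rw [Finset.sum_range_succ, Finset.mul_sum]
  congr 1
  · apply Finset.sum_congr rfl
    intro n hn
    have : n ≤ R := Nat.lt_succ_iff.1 (Finset.mem_range.1 hn)
    rw [show R + 1 - n = (R - n) + 1 by omega, pow_succ]
    ring
  · simp

lemma S_zero (b : ℕ) (G : ℤ[X]) : S b G 0 = G.coeff 0 := by
  simp [S]

/-- `|S(M)| ≤ b^M |G(1/b)| + ∑_{n > M} |G_n|` -/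
lemma abs_S_le (b : ℕ) (hb : 2 ≤ b) (G : ℤ[X]) (M : ℕ) :
    (|S b G M| : ℝ) ≤ (b : ℝ) ^ M * |(G.map (Int.castRingHom ℝ)).eval (1 / (b : ℝ))| +
      (n1 G : ℝ) - ∑ n ∈ range (M + 1), |(G.coeff n : ℝ)| := by
  have hb0 : (0 : ℝ) < b := by positivity
  have hb1 : (1 : ℝ) ≤ b := by exact_mod_cast (by omega : 1 ≤ b)
  set n := G.natDegree + M + 2 with hn
  have hev : (G.map (Int.castRingHom ℝ)).eval (1 / (b : ℝ)) =
      ∑ i ∈ range n, (G.coeff i : ℝ) * (1 / (b : ℝ)) ^ i := by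
    rw [Polynomial.eval_eq_sum_range' (n := n)]
    · simp
    · calc (G.map (Int.castRingHom ℝ)).natDegree ≤ G.natDegree := Polynomial.natDegree_map_le
        _ < n := by omega
  have hsplit : (b : ℝ) ^ M * (G.map (Int.castRingHom ℝ)).eval (1 / (b : ℝ)) =
      (S b G M : ℝ) + ∑ i ∈ Ico (M + 1) n, (b : ℝ) ^ M * ((G.coeff i : ℝ) * (1 / (b : ℝ)) ^ i) := by
    rw [hev, Finset.mul_sum, ← Finset.sum_range_add_sum_Ico _ (show M + 1 ≤ n by omega)]
    congr 1
    unfold S
    push_cast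
    apply Finset.sum_congr rfl
    intro i hi
    have hi' : i ≤ M := Nat.lt_succ_iff.1 (Finset.mem_range.1 hi)
    have : (b : ℝ) ^ M = (b : ℝ) ^ (M - i) * (b : ℝ) ^ i := by
      rw [← pow_add]; congr 1; omega
    rw [this, one_div, inv_pow]
    have hbi : (b : ℝ) ^ i ≠ 0 := by positivity
    field_simp
  have hS : (S b G M : ℝ) = (b : ℝ) ^ M * (G.map (Int.castRingHom ℝ)).eval (1 / (b : ℝ)) -
      ∑ i ∈ Ico (M + 1) n, (b : ℝ) ^ M * ((G.coeff i : ℝ) * (1 / (b : ℝ)) ^ i) := by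
    linarith
  have htail : |∑ i ∈ Ico (M + 1) n, (b : ℝ) ^ M * ((G.coeff i : ℝ) * (1 / (b : ℝ)) ^ i)| ≤
      ∑ i ∈ Ico (M + 1) n, |(G.coeff i : ℝ)| := by
    refine (Finset.abs_sum_le_sum_abs _ _).trans ?_
    apply Finset.sum_le_sum
    intro i hi
    rw [Finset.mem_Ico] at hi
    rw [abs_mul, abs_mul, abs_of_pos (pow_pos hb0 M), abs_of_pos (show (0:ℝ) < (1 / (b : ℝ)) ^ i by positivity)]
    have h1 : (b : ℝ) ^ M * (1 / (b : ℝ)) ^ i ≤ 1 := by
      rw [one_div, inv_pow, ← div_eq_mul_inv, div_le_one (by positivity)]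
      exact pow_le_pow_right₀ hb1 (by omega)
    calc (b : ℝ) ^ M * (|(G.coeff i : ℝ)| * (1 / (b : ℝ)) ^ i)
        = |(G.coeff i : ℝ)| * ((b : ℝ) ^ M * (1 / (b : ℝ)) ^ i) := by ring
      _ ≤ |(G.coeff i : ℝ)| * 1 := mul_le_mul_of_nonneg_left h1 (abs_nonneg _)
      _ = _ := mul_one _
  have hn1 : ∑ i ∈ range (M + 1), |(G.coeff i : ℝ)| + ∑ i ∈ Ico (M + 1) n, |(G.coeff i : ℝ)| ≤
      (n1 G : ℝ) := by
    rw [Finset.sum_range_add_sum_Ico _ (show M + 1 ≤ n by omega)]
    have := sum_abs_coeff_le G (range n)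
    exact_mod_cast this
  have h3 : |(S b G M : ℝ)| ≤ (b : ℝ) ^ M * |(G.map (Int.castRingHom ℝ)).eval (1 / (b : ℝ))| +
      ∑ i ∈ Ico (M + 1) n, |(G.coeff i : ℝ)| := by
    rw [hS]
    refine (abs_sub _ _).trans ?_
    rw [abs_mul, abs_of_pos (pow_pos hb0 M)]
    linarith
  linarith

/-- the basic `ℓ¹` inequality -/
lemma sum_abs_S_le (b : ℕ) (hb : 2 ≤ b) (G : ℤ[X]) (N : ℕ) :
    (∑ R ∈ range (N + 1), (|S b G R| : ℝ)) ≤ (n1 G : ℝ) +
      (b : ℝ) ^ (N + 1) * |(G.map (Int.castRingHom ℝ)).eval (1 / (b : ℝ))| := by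
  have hb1 : (2 : ℝ) ≤ b := by exact_mod_cast hb
  have key : ∀ N : ℕ, (∑ R ∈ range (N + 1), (|S b G R| : ℝ)) ≤
      |(S b G (N + 1) : ℝ)| + ∑ n ∈ range (N + 2), |(G.coeff n : ℝ)| := by
    intro N
    have hstep : ∀ R : ℕ, 2 * |(S b G R : ℝ)| ≤ |(S b G (R + 1) : ℝ)| + |(G.coeff (R + 1) : ℝ)| := by
      intro R
      have h1 : (b : ℝ) * (S b G R : ℝ) = (S b G (R + 1) : ℝ) - (G.coeff (R + 1) : ℝ) := by
        rw [S_succ]; push_cast; ring
      have h2 : |(b : ℝ) * (S b G R : ℝ)| = (b : ℝ) * |(S b G R : ℝ)| := by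
        rw [abs_mul, abs_of_pos (by positivity)]
      have h3 : |(S b G (R + 1) : ℝ) - (G.coeff (R + 1) : ℝ)| ≤
          |(S b G (R + 1) : ℝ)| + |(G.coeff (R + 1) : ℝ)| := abs_sub _ _
      rw [← h1, h2] at h3
      have h4 : (2 : ℝ) * |(S b G R : ℝ)| ≤ (b : ℝ) * |(S b G R : ℝ)| :=
        mul_le_mul_of_nonneg_right hb1 (abs_nonneg _)
      linarith
    have hsum : ∑ R ∈ range (N + 1), 2 * |(S b G R : ℝ)| ≤
        ∑ R ∈ range (N + 1), (|(S b G (R + 1) : ℝ)| + |(G.coeff (R + 1) : ℝ)|) :=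
      Finset.sum_le_sum fun R _ => hstep R
    rw [← Finset.mul_sum, Finset.sum_add_distrib] at hsum
    have e1 : ∑ R ∈ range (N + 2), |(S b G R : ℝ)| =
        ∑ R ∈ range (N + 1), |(S b G (R + 1) : ℝ)| + |(S b G 0 : ℝ)| :=
      Finset.sum_range_succ' _ _
    have e2 : ∑ R ∈ range (N + 2), |(S b G R : ℝ)| =
        ∑ R ∈ range (N + 1), |(S b G R : ℝ)| + |(S b G (N + 1) : ℝ)| :=
      Finset.sum_range_succ _ _
    have e3 : ∑ n ∈ range (N + 2), |(G.coeff n : ℝ)| =
        ∑ n ∈ range (N + 1), |(G.coeff (n + 1) : ℝ)| + |(G.coeff 0 : ℝ)| :=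
      Finset.sum_range_succ' _ _
    have := abs_nonneg (S b G 0 : ℝ)
    have := abs_nonneg (G.coeff 0 : ℝ)
    linarith
  have h1 := key N
  have h2 := abs_S_le b hb G (N + 1)
  have e : N + 1 + 1 = N + 2 := rfl
  rw [e] at h2
  linarith

lemma pow_q_expand (p : ℕ) [Fact p.Prime] (j : ℕ) (f : (ZMod p)[X]) :
    f ^ (p ^ j) = expand (ZMod p) (p ^ j) f := by
  induction j with
  | zero => simp
  | succ j ih =>
    rw [pow_succ, pow_mul, ih, ← ZMod.expand_card, Polynomial.expand_expand, mul_comm p]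

lemma S_comp_mod (p : ℕ) [Fact p.Prime] (b j : ℕ) (F P : ℤ[X]) (α : ZMod p)
    (hF : F.map (Int.castRingHom (ZMod p)) = C α * X ^ (p ^ j)) (R : ℕ) :
    ((S b (F.comp P) R : ℤ) : ZMod p) =
      α * (b : ZMod p) ^ (R % p ^ j) * ((S b P (R / p ^ j) : ℤ) : ZMod p) := by
  have hp : p.Prime := Fact.out
  set q := p ^ j with hq
  have hq0 : 0 < q := pow_pos hp.pos _
  have hcoef : ∀ n : ℕ, (((F.comp P).coeff n : ℤ) : ZMod p) =
      if q ∣ n then α * ((P.coeff (n / q) : ℤ) : ZMod p) else 0 := by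
    intro n
    have h1 : (F.comp P).map (Int.castRingHom (ZMod p)) =
        C α * expand (ZMod p) q (P.map (Int.castRingHom (ZMod p))) := by
      rw [Polynomial.map_comp, hF, ← pow_q_expand]
      simp [hq]
    have h2 : (((F.comp P).coeff n : ℤ) : ZMod p) =
        ((F.comp P).map (Int.castRingHom (ZMod p))).coeff n := by
      rw [Polynomial.coeff_map]; rfl
    rw [h2, h1, Polynomial.coeff_C_mul, Polynomial.coeff_expand hq0]
    split_ifs with h
    · rw [Polynomial.coeff_map]; rfl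
    · simp
  have hbq : ∀ x : ZMod p, x ^ q = x := fun x => by
    rw [hq]; exact ZMod.pow_card_pow x
  induction R with
  | zero =>
    rw [S_zero, hcoef 0]
    simp [S_zero]
  | succ R ih =>
    rw [S_succ]
    push_cast
    rw [ih, hcoef (R + 1)]
    by_cases h : q ∣ R + 1
    · rw [if_pos h]
      obtain ⟨k, hk⟩ := h
      have hk0 : 0 < k := by
        rcases Nat.eq_zero_or_pos k with h0 | h0
        · rw [h0] at hk; simp at hk
        · exact h0
      obtain ⟨k', rfl⟩ : ∃ k', k = k' + 1 := ⟨k - 1, by omega⟩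
      have hR : R = (q - 1) + q * k' := by
        have : q * (k' + 1) = q * k' + q := by ring
        omega
      have e1 : R / q = k' := by
        rw [hR, Nat.add_mul_div_left _ _ hq0, Nat.div_eq_of_lt (by omega)]; simp
      have e2 : R % q = q - 1 := by
        rw [hR, Nat.add_mul_mod_self_left, Nat.mod_eq_of_lt (by omega)]
      have e3 : (R + 1) / q = k' + 1 := by
        rw [hk, Nat.mul_div_cancel_left _ hq0]
      have e4 : (R + 1) % q = 0 := by rw [hk]; exact Nat.mul_mod_right _ _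
      rw [e1, e2, e3, e4, S_succ]
      push_cast
      have e5 : (b : ZMod p) * (b : ZMod p) ^ (q - 1) = (b : ZMod p) := by
        rw [← pow_succ', Nat.sub_add_cancel hq0, hbq]
      calc (b : ZMod p) * (α * (b : ZMod p) ^ (q - 1) * ((S b P k' : ℤ) : ZMod p)) +
            α * ((P.coeff (k' + 1) : ℤ) : ZMod p)
          = α * ((b : ZMod p) * (b : ZMod p) ^ (q - 1)) * ((S b P k' : ℤ) : ZMod p) +
            α * ((P.coeff (k' + 1) : ℤ) : ZMod p) := by ring
        _ = _ := by rw [e5]; ring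
    · rw [if_neg h]
      have e1 : (R + 1) / q = R / q := by
        rw [Nat.succ_div, if_neg h]; simp
      have e2 : (R + 1) % q = R % q + 1 := by
        have h1 := Nat.div_add_mod (R + 1) q
        have h2 := Nat.div_add_mod R q
        rw [e1] at h1
        omega
      rw [e1, e2, pow_succ]
      ring

/-- increments of a sequence in base `b` -/
def dlt (b : ℕ) (U : ℕ → ℤ) : ℕ → ℤ
  | 0 => U 0
  | k + 1 => U (k + 1) - b * U k

/-- base `b` variation of the sequence up to `N` -/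
def V (b : ℕ) (U : ℕ → ℤ) (N : ℕ) : ℤ := ∑ k ∈ range (N + 1), |dlt b U k|

lemma V_nonneg (b : ℕ) (U : ℕ → ℤ) (N : ℕ) : 0 ≤ V b U N :=
  Finset.sum_nonneg fun _ _ => abs_nonneg _

lemma V_mono (b : ℕ) (U : ℕ → ℤ) {M N : ℕ} (h : M ≤ N) : V b U M ≤ V b U N := by
  unfold V
  apply Finset.sum_le_sum_of_subset_of_nonneg
  · intro i hi
    rw [Finset.mem_range] at *
    omega
  · intro _ _ _; exact abs_nonneg _

/-- the polynomial with the increments as coefficients -/
noncomputable def Pol (b : ℕ) (U : ℕ → ℤ) (N : ℕ) : ℤ[X] :=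
  ∑ k ∈ range (N + 1), monomial k (dlt b U k)

lemma Pol_coeff (b : ℕ) (U : ℕ → ℤ) (N k : ℕ) :
    (Pol b U N).coeff k = if k ≤ N then dlt b U k else 0 := by
  unfold Pol
  rw [Polynomial.finsetSum_coeff]
  simp only [Polynomial.coeff_monomial]
  rw [Finset.sum_ite_eq' (range (N + 1)) k]
  simp

lemma n1_Pol_le (b : ℕ) (U : ℕ → ℤ) (N : ℕ) : n1 (Pol b U N) ≤ V b U N := by
  unfold Pol V
  refine (n1_sum_le _ _).trans ?_
  apply Finset.sum_le_sum
  intro k _
  rw [n1_monomial]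

lemma S_Pol (b : ℕ) (U : ℕ → ℤ) (N K : ℕ) (h : K ≤ N) : S b (Pol b U N) K = U K := by
  induction K with
  | zero => rw [S_zero, Pol_coeff, if_pos h]; rfl
  | succ K ih =>
    rw [S_succ, ih (by omega), Pol_coeff, if_pos h]
    simp [dlt]

lemma eval_Pol (b : ℕ) (hb : 2 ≤ b) (U : ℕ → ℤ) (N : ℕ) :
    ((Pol b U N).map (Int.castRingHom ℝ)).eval (1 / (b : ℝ)) = (U N : ℝ) / (b : ℝ) ^ N := by
  have hb0 : (b : ℝ) ≠ 0 := by positivity
  induction N with
  | zero => simp [Pol, dlt]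
  | succ N ih =>
    have : Pol b U (N + 1) = Pol b U N + monomial (N + 1) (dlt b U (N + 1)) := by
      unfold Pol; rw [Finset.sum_range_succ]
    rw [this, Polynomial.map_add, Polynomial.eval_add, ih, Polynomial.map_monomial,
      Polynomial.eval_monomial]
    simp only [dlt, eq_intCast]
    push_cast
    rw [one_div, inv_pow, pow_succ]
    field_simp
    ring

lemma approx_Pol (b : ℕ) (hb : 2 ≤ b) (U : ℕ → ℤ) (t C0 : ℝ)
    (hU : ∀ K, |(U K : ℝ) - (b : ℝ) ^ K * t| ≤ C0) (N : ℕ) :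
    |((Pol b U N).map (Int.castRingHom ℝ)).eval (1 / (b : ℝ)) - t| ≤ C0 / (b : ℝ) ^ N := by
  rw [eval_Pol b hb]
  have hb0 : (0 : ℝ) < (b : ℝ) ^ N := by positivity
  have : (U N : ℝ) / (b : ℝ) ^ N - t = ((U N : ℝ) - (b : ℝ) ^ N * t) / (b : ℝ) ^ N := by
    field_simp
  rw [this, abs_div, abs_of_pos hb0]
  exact div_le_div_of_nonneg_right (hU N) hb0.le

lemma card_le_of_sum (b : ℕ) (hb : 2 ≤ b) (Q : ℤ[X]) (N : ℕ) :
    (((range (N + 1)).filter (fun R => S b Q R ≠ 0)).card : ℝ) ≤ (n1 Q : ℝ) +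
      (b : ℝ) ^ (N + 1) * |(Q.map (Int.castRingHom ℝ)).eval (1 / (b : ℝ))| := by
  refine le_trans ?_ (sum_abs_S_le b hb Q N)
  calc (((range (N + 1)).filter (fun R => S b Q R ≠ 0)).card : ℝ)
      = ∑ R ∈ (range (N + 1)).filter (fun R => S b Q R ≠ 0), (1 : ℝ) := by simp
    _ ≤ ∑ R ∈ (range (N + 1)).filter (fun R => S b Q R ≠ 0), (|S b Q R| : ℝ) := by
        apply Finset.sum_le_sum
        intro R hR
        rw [Finset.mem_filter] at hR
        exact_mod_cast Int.one_le_abs hR.2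
    _ ≤ _ := by
        apply Finset.sum_le_sum_of_subset_of_nonneg (Finset.filter_subset _ _)
        intro _ _ _; exact abs_nonneg _

lemma n1_sub_le (P Q : ℤ[X]) : n1 (P - Q) ≤ n1 P + n1 Q := by
  have h : n1 (-Q) = n1 Q := by
    unfold n1
    rw [Polynomial.sum_def, Polynomial.sum_def, Polynomial.support_neg]
    apply Finset.sum_congr rfl
    intro i _
    rw [Polynomial.coeff_neg, abs_neg]
  rw [sub_eq_add_neg, ← h]
  exact n1_add_le _ _

lemma pow_sub_pow_le {u t M : ℝ} (hu : |u| ≤ M) (ht : |t| ≤ M) (q : ℕ) :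
    |u ^ q - t ^ q| ≤ |u - t| * (q * M ^ (q - 1)) := by
  rcases Nat.eq_zero_or_pos q with rfl | hq
  · simp
  have hM : 0 ≤ M := (abs_nonneg u).trans hu
  rw [← Commute.mul_geom_sum₂ (Commute.all u t) q, abs_mul]
  apply mul_le_mul_of_nonneg_left _ (abs_nonneg _)
  refine (Finset.abs_sum_le_sum_abs _ _).trans ?_
  calc ∑ i ∈ range q, |u ^ i * t ^ (q - 1 - i)| ≤ ∑ i ∈ range q, M ^ (q - 1) := by
        apply Finset.sum_le_sum
        intro i hi
        rw [Finset.mem_range] at hi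
        rw [abs_mul, abs_pow, abs_pow]
        calc |u| ^ i * |t| ^ (q - 1 - i) ≤ M ^ i * M ^ (q - 1 - i) :=
              mul_le_mul (pow_le_pow_left₀ (abs_nonneg _) hu _)
                (pow_le_pow_left₀ (abs_nonneg _) ht _) (by positivity) (by positivity)
          _ = M ^ (q - 1) := by rw [← pow_add]; congr 1; omega
    _ = q * M ^ (q - 1) := by simp


end Pool.Agent.H52.NF.DC
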