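import Pool.Agent.H52.NF.Lib1

/-!
Reduction of powers modulo a monic polynomial, the vector of partial sums modulo `q`, the Frobenius
relation, size of the exceptional sets (copied from the library: Pool.Graph.R_seed8.H323R2.Gen1, Gen2).
-/

set_option autoImplicit false

namespace Pool.Agent.H52.NF.Gen

open Polynomial Finset
open Pool.Agent.H52.NF.DC (n1 S Pol dlt V)

/-- the remainder of `X^m` modulo `f` (monic of degree `d`) -/
noncomputable def rho (f : ℤ[X]) (d : ℕ) : ℕ → ℤ[X]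
  | 0 => 1
  | m + 1 => X * rho f d m - C ((rho f d m).coeff (d - 1)) * f

lemma rho_degree (f : ℤ[X]) (hf : f.Monic) (d : ℕ) (hd : f.natDegree = d) (hd1 : 1 ≤ d) (m : ℕ) :
    (rho f d m).natDegree < d := by
  induction m with
  | zero => simp [rho]; omega
  | succ m ih =>
    have h1 : (rho f d (m + 1)).natDegree ≤ d := by
      simp only [rho]
      refine (Polynomial.natDegree_sub_le _ _).trans (max_le ?_ ?_)
      · refine (Polynomial.natDegree_mul_le).trans ?_
        rw [Polynomial.natDegree_X]; omega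
      · refine (Polynomial.natDegree_C_mul_le _ _).trans hd.le
    rcases lt_or_eq_of_le h1 with h | h
    · exact h
    · exfalso
      have h2 : (rho f d (m + 1)).coeff d = 0 := by
        simp only [rho]
        rw [Polynomial.coeff_sub, Polynomial.coeff_C_mul]
        obtain ⟨e, rfl⟩ : ∃ e, d = e + 1 := ⟨d - 1, by omega⟩
        rw [Polynomial.coeff_X_mul]
        have : f.coeff (e + 1) = 1 := by
          rw [← hd]; exact hf
        rw [this]; simp
      have h3 : rho f d (m + 1) = 0 := by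
        rw [← Polynomial.leadingCoeff_eq_zero, Polynomial.leadingCoeff, h, h2]
      rw [h3] at h
      simp at h
      omega

lemma rho_dvd (f : ℤ[X]) (d m : ℕ) : f ∣ X ^ m - rho f d m := by
  induction m with
  | zero => simp [rho]
  | succ m ih =>
    simp only [rho]
    have : (X ^ (m + 1) - (X * rho f d m - C ((rho f d m).coeff (d - 1)) * f) : ℤ[X]) =
        X * (X ^ m - rho f d m) + C ((rho f d m).coeff (d - 1)) * f := by ring
    rw [this]
    exact dvd_add (Dvd.dvd.mul_left ih _) (Dvd.intro_left _ rfl)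

lemma n1_X_mul_le (P : ℤ[X]) : n1 (X * P) ≤ n1 P := by
  have h := Pool.Agent.H52.NF.DC.n1_mul_le (X : ℤ[X]) P
  have h1 : n1 (X : ℤ[X]) = 1 := by
    rw [← Polynomial.monomial_one_one_eq_X, Pool.Agent.H52.NF.DC.n1_monomial]; simp
  rw [h1, one_mul] at h
  exact h

lemma abs_coeff_le (P : ℤ[X]) (i : ℕ) : |P.coeff i| ≤ n1 P := by
  have := Pool.Agent.H52.NF.DC.sum_abs_coeff_le P {i}
  simpa using this

lemma n1_rho_le (f : ℤ[X]) (d m : ℕ) : n1 (rho f d m) ≤ (1 + n1 f) ^ m := by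
  have hf0 := Pool.Agent.H52.NF.DC.n1_nonneg f
  induction m with
  | zero => simp [rho, Pool.Agent.H52.NF.DC.n1_one]
  | succ m ih =>
    simp only [rho]
    have h0 := Pool.Agent.H52.NF.DC.n1_nonneg (rho f d m)
    calc n1 (X * rho f d m - C ((rho f d m).coeff (d - 1)) * f)
        ≤ n1 (X * rho f d m) + n1 (C ((rho f d m).coeff (d - 1)) * f) :=
          Pool.Agent.H52.NF.DC.n1_sub_le _ _
      _ ≤ n1 (rho f d m) + |(rho f d m).coeff (d - 1)| * n1 f := by
          apply add_le_add (n1_X_mul_le _)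
          refine (Pool.Agent.H52.NF.DC.n1_mul_le _ _).trans ?_
          rw [Pool.Agent.H52.NF.DC.n1_C]
      _ ≤ n1 (rho f d m) + n1 (rho f d m) * n1 f := by
          have := mul_le_mul_of_nonneg_right (abs_coeff_le (rho f d m) (d - 1)) hf0
          linarith
      _ = n1 (rho f d m) * (1 + n1 f) := by ring
      _ ≤ (1 + n1 f) ^ m * (1 + n1 f) := mul_le_mul_of_nonneg_right ih (by linarith)
      _ = _ := by rw [pow_succ]

/-- the relation polynomial -/
noncomputable def Fr (f : ℤ[X]) (d m : ℕ) : ℤ[X] := X ^ m - rho f d m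

lemma S_add (b : ℕ) (A B : ℤ[X]) (R : ℕ) : S b (A + B) R = S b A R + S b B R := by
  unfold S
  rw [← Finset.sum_add_distrib]
  apply Finset.sum_congr rfl
  intro n _
  rw [Polynomial.coeff_add]; ring

lemma S_C_mul (b : ℕ) (B : ℤ[X]) (c : ℤ) (R : ℕ) : S b (C c * B) R = c * S b B R := by
  unfold S
  rw [Finset.mul_sum]
  apply Finset.sum_congr rfl
  intro n _
  rw [Polynomial.coeff_C_mul]
  ring

lemma S_zero' (b : ℕ) (R : ℕ) : S b (0 : ℤ[X]) R = 0 := by
  unfold S; simp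

lemma S_sum {ι : Type} (b : ℕ) (s : Finset ι) (A : ι → ℤ[X]) (R : ℕ) :
    S b (∑ i ∈ s, A i) R = ∑ i ∈ s, S b (A i) R := by
  classical
  induction s using Finset.induction_on with
  | empty => simp [S_zero']
  | insert a s ha ih => rw [Finset.sum_insert ha, Finset.sum_insert ha, S_add, ih]

/-- components of the vector of partial sums of powers mod `q` -/
noncomputable def vv (b : ℕ) (P : ℤ[X]) (q i R : ℕ) : ZMod q :=
  ((S b (P ^ i) R : ℤ) : ZMod q) * ((b : ZMod q)⁻¹) ^ R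

/-- Frobenius -/
lemma vv_frob (b : ℕ) (P : ℤ[X]) (q : ℕ) [Fact q.Prime] (hb : (b : ZMod q) ≠ 0) (i R : ℕ) :
    vv b P q i (R / q) = vv b P q (i * q) R := by
  have hF : ((X ^ q : ℤ[X]).map (Int.castRingHom (ZMod q))) = C (1 : ZMod q) * X ^ (q ^ 1) := by
    simp
  have h1 := Pool.Agent.H52.NF.DC.S_comp_mod q b 1 (X ^ q) (P ^ i) 1 hF R
  rw [pow_one, Polynomial.X_pow_comp, ← pow_mul, one_mul] at h1
  unfold vv
  rw [h1]
  have e : R = R % q + q * (R / q) := (Nat.mod_add_div R q).symm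
  have hbR : ((b : ZMod q)⁻¹) ^ R = ((b : ZMod q)⁻¹) ^ (R % q) * ((b : ZMod q)⁻¹) ^ (R / q) := by
    conv_lhs => rw [e]
    rw [pow_add, pow_mul, ZMod.pow_card]
  rw [hbR]
  have hbb : (b : ZMod q) ^ (R % q) * ((b : ZMod q)⁻¹) ^ (R % q) = 1 := by
    rw [← mul_pow, mul_inv_cancel₀ hb, one_pow]
  calc ((S b (P ^ i) (R / q) : ℤ) : ZMod q) * ((b : ZMod q)⁻¹) ^ (R / q)
      = ((b : ZMod q) ^ (R % q) * ((b : ZMod q)⁻¹) ^ (R % q)) *
        (((S b (P ^ i) (R / q) : ℤ) : ZMod q) * ((b : ZMod q)⁻¹) ^ (R / q)) := by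
        rw [hbb, one_mul]
    _ = _ := by ring

/-- reduction -/
lemma vv_red (f : ℤ[X]) (hf : f.Monic) (d : ℕ) (hd : f.natDegree = d) (hd1 : 1 ≤ d)
    (b : ℕ) (P : ℤ[X]) (q m R : ℕ) (h : S b ((Fr f d m).comp P) R = 0) :
    vv b P q m R = ∑ j ∈ range d, (((rho f d m).coeff j : ℤ) : ZMod q) * vv b P q j R := by
  have h1 : (Fr f d m).comp P = P ^ m + C (-1) * ∑ j ∈ range d, C ((rho f d m).coeff j) * P ^ j := by
    unfold Fr
    rw [Polynomial.sub_comp, Polynomial.X_pow_comp]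
    conv_lhs => rw [Polynomial.as_sum_range_C_mul_X_pow' (p := rho f d m) (rho_degree f hf d hd hd1 m)]
    rw [Polynomial.sum_comp]
    simp only [Polynomial.mul_comp, Polynomial.C_comp, Polynomial.X_pow_comp]
    simp [sub_eq_add_neg]
  rw [h1, S_add, S_C_mul, S_sum] at h
  have h2 : S b (P ^ m) R = ∑ j ∈ range d, (rho f d m).coeff j * S b (P ^ j) R := by
    have : ∀ j ∈ range d, S b (C ((rho f d m).coeff j) * P ^ j) R =
        (rho f d m).coeff j * S b (P ^ j) R := fun j _ => S_C_mul _ _ _ _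
    rw [Finset.sum_congr rfl this] at h
    linarith
  unfold vv
  rw [h2]
  push_cast
  rw [Finset.sum_mul]
  apply Finset.sum_congr rfl
  intro j _
  ring

/-- exceptional set -/
noncomputable def badG (f : ℤ[X]) (d b : ℕ) (P : ℤ[X]) (q N : ℕ) : Finset ℕ :=
  (range d).biUnion fun i =>
    (range (N + 1)).filter (fun R => S b ((Fr f d (i * q)).comp P) R ≠ 0)

/-- the Frobenius matrix -/
noncomputable def MM (f : ℤ[X]) (d q : ℕ) : Matrix (Fin d) (Fin d) (ZMod q) :=
  Matrix.of fun i j => (((rho f d (i * q)).coeff j : ℤ) : ZMod q)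

/-- the vector -/
noncomputable def ve (d b : ℕ) (P : ℤ[X]) (q R : ℕ) : Fin d → ZMod q := fun i => vv b P q i R

theorem ve_dil (f : ℤ[X]) (hf : f.Monic) (d : ℕ) (hd : f.natDegree = d) (hd1 : 1 ≤ d)
    (b : ℕ) (P : ℤ[X]) (q : ℕ) [Fact q.Prime] (hb : (b : ZMod q) ≠ 0) (N R : ℕ) (hR : R ≤ N)
    (hbad : R ∉ badG f d b P q N) :
    ve d b P q (R / q) = (MM f d q).mulVec (ve d b P q R) := by
  funext i
  have h0 : S b ((Fr f d (i * q)).comp P) R = 0 := by
    by_contra hne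
    apply hbad
    unfold badG
    rw [Finset.mem_biUnion]
    exact ⟨i, Finset.mem_range.2 i.2, Finset.mem_filter.2 ⟨Finset.mem_range.2 (by omega), hne⟩⟩
  have h1 := vv_red f hf d hd hd1 b P q (i * q) R h0
  simp only [ve, Matrix.mulVec, dotProduct, MM, Matrix.of_apply]
  rw [vv_frob b P q hb, h1, Finset.sum_range]



lemma eval_sub_le (F : ℤ[X]) (D : ℕ) (hdeg : F.natDegree ≤ D) (u t T : ℝ) (hT1 : 1 ≤ T)
    (hu : |u| ≤ T) (ht : |t| ≤ T) :
    |(F.map (Int.castRingHom ℝ)).eval u - (F.map (Int.castRingHom ℝ)).eval t| ≤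
      |u - t| * ((n1 F : ℝ) * (D * T ^ D)) := by
  have hev : ∀ w : ℝ, (F.map (Int.castRingHom ℝ)).eval w =
      ∑ i ∈ range (D + 1), (F.coeff i : ℝ) * w ^ i := by
    intro w
    rw [Polynomial.eval_eq_sum_range' (n := D + 1)]
    · simp
    · exact lt_of_le_of_lt Polynomial.natDegree_map_le (by omega)
  rw [hev u, hev t, ← Finset.sum_sub_distrib]
  refine (Finset.abs_sum_le_sum_abs _ _).trans ?_
  calc ∑ i ∈ range (D + 1), |(F.coeff i : ℝ) * u ^ i - (F.coeff i : ℝ) * t ^ i|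
      ≤ ∑ i ∈ range (D + 1), |(F.coeff i : ℝ)| * (|u - t| * (D * T ^ D)) := by
        apply Finset.sum_le_sum
        intro i hi
        rw [Finset.mem_range] at hi
        rw [← mul_sub, abs_mul]
        apply mul_le_mul_of_nonneg_left _ (abs_nonneg _)
        refine (Pool.Agent.H52.NF.DC.pow_sub_pow_le hu ht i).trans ?_
        apply mul_le_mul_of_nonneg_left _ (abs_nonneg _)
        have h1 : (i : ℝ) ≤ D := by exact_mod_cast (by omega : i ≤ D)
        have h2 : T ^ (i - 1) ≤ T ^ D := pow_le_pow_right₀ hT1 (by omega)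
        exact mul_le_mul h1 h2 (by positivity) (by positivity)
    _ = (∑ i ∈ range (D + 1), |(F.coeff i : ℝ)|) * (|u - t| * (D * T ^ D)) := by
        rw [Finset.sum_mul]
    _ ≤ (n1 F : ℝ) * (|u - t| * (D * T ^ D)) := by
        apply mul_le_mul_of_nonneg_right _ (by positivity)
        have := Pool.Agent.H52.NF.DC.sum_abs_coeff_le F (range (D + 1))
        exact_mod_cast this
    _ = _ := by ring

lemma cardF (b : ℕ) (hb : 2 ≤ b) (t C0 T A : ℝ) (hT1 : 1 ≤ T) (hT : |t| + C0 ≤ T) (hA : 1 ≤ A)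
    (U : ℕ → ℤ) (hU : ∀ K, |(U K : ℝ) - (b : ℝ) ^ K * t| ≤ C0) (N : ℕ) (F : ℤ[X]) (D : ℕ)
    (hdeg : F.natDegree ≤ D) (hn : (n1 F : ℝ) ≤ A ^ D)
    (hF : (F.map (Int.castRingHom ℝ)).eval t = 0) (hD : 1 ≤ D) :
    (((range (N + 1)).filter (fun R => S b (F.comp (Pol b U N)) R ≠ 0)).card : ℝ) ≤
      (2 * A * T * (1 + b * C0) * (1 + (V b U N : ℝ))) ^ D := by
  have hC0 : 0 ≤ C0 := (abs_nonneg _).trans (hU 0)
  have hb1 : (2 : ℝ) ≤ b := by exact_mod_cast hb
  set P := Pol b U N with hP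
  set u := (P.map (Int.castRingHom ℝ)).eval (1 / (b : ℝ)) with hu
  have hut : |u - t| ≤ C0 / (b : ℝ) ^ N := Pool.Agent.H52.NF.DC.approx_Pol b hb U t C0 hU N
  have hbN : (1 : ℝ) ≤ (b : ℝ) ^ N := one_le_pow₀ (by linarith)
  have hut2 : |u - t| ≤ C0 := hut.trans (div_le_self hC0 hbN)
  have huT : |u| ≤ T := by
    have : |u| ≤ |u - t| + |t| := by
      calc |u| = |(u - t) + t| := by ring_nf
        _ ≤ _ := abs_add_le _ _
    linarith
  have htT : |t| ≤ T := by linarith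
  have hn1 : (n1 P : ℝ) ≤ (V b U N : ℝ) := by exact_mod_cast Pool.Agent.H52.NF.DC.n1_Pol_le b U N
  have hn0 : (0 : ℝ) ≤ (n1 P : ℝ) := by exact_mod_cast Pool.Agent.H52.NF.DC.n1_nonneg P
  have hF0 : (0 : ℝ) ≤ (n1 F : ℝ) := by exact_mod_cast Pool.Agent.H52.NF.DC.n1_nonneg F
  set W : ℝ := 1 + (V b U N : ℝ) with hW
  have hW1 : 1 ≤ W := by linarith
  have h1 := Pool.Agent.H52.NF.DC.card_le_of_sum b hb (F.comp P) N
  have hev : ((F.comp P).map (Int.castRingHom ℝ)).eval (1 / (b : ℝ)) =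
      (F.map (Int.castRingHom ℝ)).eval u := by
    rw [Polynomial.map_comp, Polynomial.eval_comp]
  have h2 : |(F.map (Int.castRingHom ℝ)).eval u| ≤ |u - t| * ((n1 F : ℝ) * (D * T ^ D)) := by
    have := eval_sub_le F D hdeg u t T hT1 huT htT
    rw [hF, sub_zero] at this
    exact this
  have hbb : (b : ℝ) ^ (N + 1) * (C0 / (b : ℝ) ^ N) = b * C0 := by
    rw [pow_succ]; field_simp
  have h3 : (b : ℝ) ^ (N + 1) * |((F.comp P).map (Int.castRingHom ℝ)).eval (1 / (b : ℝ))| ≤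
      b * C0 * (A ^ D * (2 ^ D * T ^ D)) := by
    rw [hev]
    calc (b : ℝ) ^ (N + 1) * |(F.map (Int.castRingHom ℝ)).eval u|
        ≤ (b : ℝ) ^ (N + 1) * ((C0 / (b : ℝ) ^ N) * ((n1 F : ℝ) * (D * T ^ D))) := by
          apply mul_le_mul_of_nonneg_left _ (by positivity)
          refine h2.trans ?_
          apply mul_le_mul_of_nonneg_right hut
          positivity
      _ = b * C0 * ((n1 F : ℝ) * (D * T ^ D)) := by rw [← mul_assoc, hbb]
      _ ≤ b * C0 * (A ^ D * (2 ^ D * T ^ D)) := by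
          apply mul_le_mul_of_nonneg_left _ (by positivity)
          have hD2 : (D : ℝ) ≤ 2 ^ D := by
            have : D ≤ 2 ^ D := Nat.lt_two_pow_self.le
            exact_mod_cast this
          gcongr
  have h4 : (n1 (F.comp P) : ℝ) ≤ A ^ D * W ^ D := by
    have e1 : (n1 (F.comp P) : ℝ) ≤ (n1 F : ℝ) * (1 + (n1 P : ℝ)) ^ F.natDegree := by
      exact_mod_cast Pool.Agent.H52.NF.DC.n1_comp_le F P
    refine e1.trans ?_
    apply mul_le_mul hn _ (by positivity) (by positivity)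
    calc (1 + (n1 P : ℝ)) ^ F.natDegree ≤ W ^ F.natDegree :=
          pow_le_pow_left₀ (by linarith) (by linarith) _
      _ ≤ W ^ D := pow_le_pow_right₀ hW1 hdeg
  have hbC0 : 0 ≤ b * C0 := by positivity
  have h5 : 1 + b * C0 ≤ (1 + b * C0) ^ D := by
    calc 1 + b * C0 = (1 + b * C0) ^ 1 := (pow_one _).symm
      _ ≤ _ := pow_le_pow_right₀ (by linarith) hD
  have h2T : 1 ≤ (2 : ℝ) ^ D * T ^ D := by
    rw [← mul_pow]; exact one_le_pow₀ (by linarith)
  have hWD : 1 ≤ W ^ D := one_le_pow₀ hW1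
  calc (((range (N + 1)).filter (fun R => S b (F.comp P) R ≠ 0)).card : ℝ)
      ≤ A ^ D * W ^ D + b * C0 * (A ^ D * (2 ^ D * T ^ D)) := by linarith
    _ ≤ A ^ D * W ^ D * (2 ^ D * T ^ D) + b * C0 * (A ^ D * (2 ^ D * T ^ D)) * W ^ D := by
        apply add_le_add
        · exact le_mul_of_one_le_right (by positivity) h2T
        · exact le_mul_of_one_le_right (by positivity) hWD
    _ = (1 + b * C0) * (A ^ D * (2 ^ D * T ^ D) * W ^ D) := by ring
    _ ≤ (1 + b * C0) ^ D * (A ^ D * (2 ^ D * T ^ D) * W ^ D) := by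
        apply mul_le_mul_of_nonneg_right h5 (by positivity)
    _ = _ := by simp only [mul_pow]; ring

theorem badG_card (f : ℤ[X]) (hf : f.Monic) (d : ℕ) (hd : f.natDegree = d) (hd1 : 1 ≤ d)
    (b : ℕ) (hb : 2 ≤ b) (t C0 : ℝ) (ht : (f.map (Int.castRingHom ℝ)).eval t = 0)
    (U : ℕ → ℤ) (hU : ∀ K, |(U K : ℝ) - (b : ℝ) ^ K * t| ≤ C0) :
    ∃ C : ℝ, 1 ≤ C ∧ ∀ N q : ℕ, 1 ≤ q →
      ((badG f d b (Pol b U N) q N).card : ℝ) ≤ (C * (1 + (V b U N : ℝ))) ^ (d * q) ∧
      (((range (N + 1)).filter (fun R => S b (f.comp (Pol b U N)) R ≠ 0)).card : ℝ) ≤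
        (C * (1 + (V b U N : ℝ))) ^ (d * q) := by
  have hC0 : 0 ≤ C0 := (abs_nonneg _).trans (hU 0)
  have hf0 : (0 : ℝ) ≤ (n1 f : ℝ) := by exact_mod_cast Pool.Agent.H52.NF.DC.n1_nonneg f
  set A : ℝ := 2 * (1 + (n1 f : ℝ)) with hA
  set T : ℝ := 1 + |t| + C0 with hT
  have hA1 : 1 ≤ A := by linarith
  have hT1 : 1 ≤ T := by have := abs_nonneg t; linarith
  have hTt : |t| + C0 ≤ T := by linarith
  have hbC0 : 0 ≤ b * C0 := by positivity
  set C1 : ℝ := 2 * A * T * (1 + b * C0) with hC1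
  have hC11 : 1 ≤ C1 := by
    have h1 : 1 ≤ 2 * A := by linarith
    have h2 : 1 ≤ 1 + b * C0 := by linarith
    calc (1 : ℝ) = 1 * 1 * 1 := by norm_num
      _ ≤ 2 * A * T * (1 + b * C0) := by gcongr
  have hd1R : (1 : ℝ) ≤ d := by exact_mod_cast hd1
  refine ⟨d * C1, by nlinarith, fun N q hq => ?_⟩
  have hV0 : (0 : ℝ) ≤ (V b U N : ℝ) := by exact_mod_cast Pool.Agent.H52.NF.DC.V_nonneg b U N
  set W : ℝ := 1 + (V b U N : ℝ) with hW
  have hW1 : 1 ≤ W := by linarith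
  have hdq : 1 ≤ d * q := Nat.mul_pos hd1 hq
  have hddq : d ≤ d * q := Nat.le_mul_of_pos_right _ hq
  have hAD : A ^ (d * q) = 2 ^ (d * q) * (1 + (n1 f : ℝ)) ^ (d * q) := by
    rw [hA, mul_pow]
  have h2D : (2 : ℝ) ≤ 2 ^ (d * q) := by
    calc (2 : ℝ) = 2 ^ 1 := (pow_one _).symm
      _ ≤ 2 ^ (d * q) := pow_le_pow_right₀ (by norm_num) hdq
  have hB1 : 1 ≤ (1 + (n1 f : ℝ)) ^ (d * q) := one_le_pow₀ (by linarith)
  have hCW : C1 * W ≤ d * C1 * W := by
    have : 0 ≤ C1 * W := by positivity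
    nlinarith
  have hCW0 : 0 ≤ C1 * W := by positivity
  constructor
  · unfold badG
    have hcard : ∀ i ∈ range d, (((range (N + 1)).filter
        (fun R => S b ((Fr f d (i * q)).comp (Pol b U N)) R ≠ 0)).card : ℝ) ≤
        (C1 * W) ^ (d * q) := by
      intro i hi
      rw [Finset.mem_range] at hi
      have hiq : i * q ≤ d * q := Nat.mul_le_mul_right _ hi.le
      refine cardF b hb t C0 T A hT1 hTt hA1 U hU N _ (d * q) ?_ ?_ ?_ hdq
      · unfold Fr
        refine (Polynomial.natDegree_sub_le _ _).trans (max_le ?_ ?_)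
        · rw [Polynomial.natDegree_X_pow]; exact hiq
        · exact (rho_degree f hf d hd hd1 _).le.trans hddq
      · have e1 : n1 (Fr f d (i * q)) ≤ 1 + (1 + n1 f) ^ (i * q) := by
          unfold Fr
          refine (Pool.Agent.H52.NF.DC.n1_sub_le _ _).trans ?_
          apply add_le_add _ (n1_rho_le _ _ _)
          rw [← Polynomial.monomial_one_right_eq_X_pow, Pool.Agent.H52.NF.DC.n1_monomial]
          simp
        have e2 : (n1 (Fr f d (i * q)) : ℝ) ≤ 1 + (1 + (n1 f : ℝ)) ^ (i * q) := by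
          exact_mod_cast e1
        have e3 : (1 + (n1 f : ℝ)) ^ (i * q) ≤ (1 + (n1 f : ℝ)) ^ (d * q) :=
          pow_le_pow_right₀ (by linarith) hiq
        rw [hAD]
        nlinarith
      · obtain ⟨h, hh⟩ := rho_dvd f d (i * q)
        unfold Fr
        rw [hh, Polynomial.map_mul, Polynomial.eval_mul, ht, zero_mul]
    calc (((range d).biUnion fun i => (range (N + 1)).filter
        (fun R => S b ((Fr f d (i * q)).comp (Pol b U N)) R ≠ 0)).card : ℝ)
        ≤ ((∑ i ∈ range d, ((range (N + 1)).filter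
        (fun R => S b ((Fr f d (i * q)).comp (Pol b U N)) R ≠ 0)).card : ℕ) : ℝ) := by
          exact_mod_cast Finset.card_biUnion_le
      _ ≤ ∑ i ∈ range d, (C1 * W) ^ (d * q) := by
          push_cast
          exact Finset.sum_le_sum hcard
      _ = d * (C1 * W) ^ (d * q) := by simp
      _ ≤ (d : ℝ) ^ (d * q) * (C1 * W) ^ (d * q) := by
          apply mul_le_mul_of_nonneg_right _ (by positivity)
          calc (d : ℝ) = (d : ℝ) ^ 1 := (pow_one _).symm
            _ ≤ _ := pow_le_pow_right₀ hd1R hdq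
      _ = (d * C1 * W) ^ (d * q) := by rw [← mul_pow, ← mul_assoc (d : ℝ) C1 W]
  · have h1 := cardF b hb t C0 T A hT1 hTt hA1 U hU N f (d * q) (by rw [hd]; exact hddq) (by
      rw [hAD]
      have e1 : (1 + (n1 f : ℝ)) ≤ (1 + (n1 f : ℝ)) ^ (d * q) := by
        calc (1 + (n1 f : ℝ)) = (1 + (n1 f : ℝ)) ^ 1 := (pow_one _).symm
          _ ≤ _ := pow_le_pow_right₀ (by linarith) hdq
      nlinarith) ht hdq
    refine h1.trans ?_
    exact pow_le_pow_left₀ hCW0 hCW _


end Pool.Agent.H52.NF.Gen
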