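import Pool.Agent.H52.NF.Growth

/-!
From sequences to expansions of real algebraic irrational numbers.
-/

set_option autoImplicit false

namespace Pool.Agent.H52.NF

open Finset Filter Topology Polynomial
open Pool.Agent.H52.NF.DC (dlt)

/-- a nonzero integer multiple of a real algebraic irrational is the root of a monic irreducible
integer polynomial of degree at least 2 (copied from the library: Pool.Graph.R_seed8.W44.ExpTwo) -/
lemma exists_monic (x : ℝ) (halg : IsAlgebraic ℚ x) (hirr : Irrational x) :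
    ∃ T : ℤ, T ≠ 0 ∧ ∃ f : Polynomial ℤ, f.Monic ∧ Irreducible f ∧ 2 ≤ f.natDegree ∧
      (f.map (Int.castRingHom ℝ)).eval (T * x) = 0 := by
  have halg' : IsAlgebraic ℤ x := (IsFractionRing.isAlgebraic_iff ℤ ℚ ℝ).2 halg
  obtain ⟨T, hT, hint⟩ := halg'.exists_integral_multiple
  rw [zsmul_eq_mul] at hint
  refine ⟨T, hT, minpoly ℤ ((T : ℝ) * x), minpoly.monic hint, minpoly.irreducible hint, ?_, ?_⟩
  · by_contra hlt
    have hpos := minpoly.natDegree_pos hint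
    have h1 : (minpoly ℤ ((T : ℝ) * x)).natDegree = 1 := by omega
    have hm := minpoly.monic hint
    have h0 := minpoly.aeval ℤ ((T : ℝ) * x)
    have h2 : minpoly ℤ ((T : ℝ) * x) = Polynomial.X + Polynomial.C ((minpoly ℤ ((T : ℝ) * x)).coeff 0) := by
      rw [← Polynomial.Monic.eq_X_add_C hm h1]
    rw [h2] at h0
    simp only [map_add, Polynomial.aeval_X, Polynomial.aeval_C] at h0
    have h3 : Irrational ((T : ℝ) * x) := hirr.intCast_mul hT
    apply h3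
    refine ⟨-((minpoly ℤ ((T : ℝ) * x)).coeff 0 : ℚ), ?_⟩
    push_cast
    have h4 : (T : ℝ) * x + ((minpoly ℤ ((T : ℝ) * x)).coeff 0 : ℝ) = 0 := h0
    linarith
  · have h0 := minpoly.aeval ℤ ((T : ℝ) * x)
    rw [Polynomial.eval_map]
    exact h0

/-- the remainders of a bounded expansion (after the library: Pool.Graph.R_seed8.TH842.A3.Uni) -/
theorem exp_of_sum (b : ℕ) (hb : 2 ≤ b) (x : ℝ) (g : ℕ → ℤ) (G : ℤ) (hg : ∀ k, |g k| ≤ G)
    (hsum : HasSum (fun k : ℕ => (g k : ℝ) / (b : ℝ) ^ k) x) :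
    (∀ n, (∑ k ∈ range (n + 1 + 1), g k * (b : ℤ) ^ (n + 1 - k)) =
      b * (∑ k ∈ range (n + 1), g k * (b : ℤ) ^ (n - k)) + g (n + 1)) ∧
    (∀ n, |((∑ k ∈ range (n + 1), g k * (b : ℤ) ^ (n - k) : ℤ) : ℝ) - (b : ℝ) ^ n * x| ≤ G) := by
  have hb2 : (2 : ℝ) ≤ b := by exact_mod_cast hb
  have hb0 : (0 : ℝ) < b := by linarith
  refine ⟨?_, ?_⟩
  · intro n
    rw [Finset.sum_range_succ, Finset.mul_sum]
    congr 1
    · apply Finset.sum_congr rfl
      intro k hk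
      have : k ≤ n := Nat.lt_succ_iff.1 (Finset.mem_range.1 hk)
      rw [show n + 1 - k = (n - k) + 1 by omega, pow_succ]; ring
    · simp
  · intro n
    have h1 := (hasSum_nat_add_iff' (n + 1)).2 hsum
    have h2 := h1.mul_left ((b : ℝ) ^ n)
    have h3 : (b : ℝ) ^ n * (x - ∑ k ∈ range (n + 1), (g k : ℝ) / (b : ℝ) ^ k) =
        (b : ℝ) ^ n * x - ((∑ k ∈ range (n + 1), g k * (b : ℤ) ^ (n - k) : ℤ) : ℝ) := by
      rw [mul_sub]
      congr 1
      push_cast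
      rw [Finset.mul_sum]
      apply Finset.sum_congr rfl
      intro k hk
      have hk' : k ≤ n := Nat.lt_succ_iff.1 (Finset.mem_range.1 hk)
      have e : (b : ℝ) ^ n = (b : ℝ) ^ (n - k) * (b : ℝ) ^ k := by rw [← pow_add]; congr 1; omega
      rw [e]
      have : (b : ℝ) ^ k ≠ 0 := by positivity
      field_simp
    rw [h3] at h2
    have h4 := HasSum.norm_le_of_bounded h2 (hasSum_geometric_two' (G : ℝ)) (by
      intro k
      have hgk : |(g (k + (n + 1)) : ℝ)| ≤ G := by exact_mod_cast hg (k + (n + 1))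
      have hM0 : (0 : ℝ) ≤ G := (abs_nonneg _).trans hgk
      have e : (b : ℝ) ^ n * ((g (k + (n + 1)) : ℝ) / (b : ℝ) ^ (k + (n + 1))) =
          (g (k + (n + 1)) : ℝ) / (b : ℝ) ^ (k + 1) := by
        rw [show k + (n + 1) = n + (k + 1) by ring, pow_add]
        field_simp
      rw [e, Real.norm_eq_abs, abs_div, abs_of_pos (show (0 : ℝ) < (b : ℝ) ^ (k + 1) by positivity),
        div_div]
      apply div_le_div₀ hM0 hgk (by positivity)
      rw [← pow_succ']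
      exact pow_le_pow_left₀ (by norm_num) hb2 _)
    rw [Real.norm_eq_abs, abs_sub_comm] at h4
    exact h4

/-- the lower bound for the failures of a relation between neighbouring terms of an expansion -/
theorem out (x : ℝ) (halg : IsAlgebraic ℚ x) (hirr : Irrational x) (b : ℕ) (hb : 2 ≤ b)
    (g : ℕ → ℤ) (G : ℤ) (hg : ∀ k, |g k| ≤ G)
    (hsum : HasSum (fun k : ℕ => (g k : ℝ) / (b : ℝ) ^ k) x)
    (m : ℕ) (q : ℕ → ℤ) (e : ℤ) (hq : ∑ j ∈ range (m + 1), q j * (b : ℤ) ^ j ≠ 0) :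
    ∃ c : ℝ, 0 < c ∧ ∃ N0 : ℕ, ∀ N L W : ℕ, N0 ≤ N → 1 ≤ L → 1 ≤ W → W ≤ N →
      (∀ k l : ℕ, N ≤ k ^ 2 → k < l → l ≤ N → ∑ j ∈ range (m + 1), q j * g (k + j) ≠ e →
        ∑ j ∈ range (m + 1), q j * g (l + j) ≠ e → l - k ≤ L ∨ W ≤ l - k) →
      Real.exp (c * min (√(Real.log W)) (Real.log W / L)) ≤
        (((Icc 1 N).filter (fun k : ℕ => ∑ j ∈ range (m + 1), q j * g (k + j) ≠ e)).card : ℝ) := by
  classical
  have hb2 : (2 : ℝ) ≤ b := by exact_mod_cast hb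
  have hb1 : (0 : ℝ) ≤ (b : ℝ) - 1 := by linarith
  have hbZ : ((b : ℤ) - 1) ≠ 0 := by
    have : (2 : ℤ) ≤ b := by exact_mod_cast hb
    omega
  obtain ⟨hWs, hWa⟩ := exp_of_sum b hb x g G hg hsum
  set Wk : ℕ → ℤ := fun n => ∑ k ∈ range (n + 1), g k * (b : ℤ) ^ (n - k) with hWk
  have hWs' : ∀ n, Wk (n + 1) = b * Wk n + g (n + 1) := hWs
  have hWa' : ∀ n, |(Wk n : ℝ) - (b : ℝ) ^ n * x| ≤ G := hWa
  set T : ℤ := ((b : ℤ) - 1) * ∑ j ∈ range (m + 1), q j * (b : ℤ) ^ j with hT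
  have hT0 : T ≠ 0 := mul_ne_zero hbZ hq
  have halg1 : IsAlgebraic ℚ ((T : ℝ) * x) := by
    have h1 : IsAlgebraic ℚ ((T : ℝ)) := isAlgebraic_intCast (R := ℚ) (A := ℝ) T
    exact h1.mul halg
  have hirr1 : Irrational ((T : ℝ) * x) := hirr.intCast_mul hT0
  obtain ⟨S, hS, f, hfm, hfi, hd, hroot⟩ := exists_monic _ halg1 hirr1
  set Y : ℕ → ℤ := fun k => ((b : ℤ) - 1) * ∑ j ∈ range (m + 1), q j * Wk (k + j) + e with hY
  set U : ℕ → ℤ := fun n => S * Y n with hU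
  have hYs : ∀ k, Y (k + 1) - b * Y k =
      ((b : ℤ) - 1) * (∑ j ∈ range (m + 1), q j * g (k + 1 + j) - e) := by
    intro k
    have h1 : ∑ j ∈ range (m + 1), q j * Wk (k + 1 + j) =
        b * ∑ j ∈ range (m + 1), q j * Wk (k + j) +
          ∑ j ∈ range (m + 1), q j * g (k + 1 + j) := by
      rw [Finset.mul_sum, ← Finset.sum_add_distrib]
      apply Finset.sum_congr rfl
      intro j _
      have e1 : k + 1 + j = k + j + 1 := by ring
      rw [e1, hWs' (k + j)]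
      ring
    simp only [hY]
    rw [h1]
    ring
  set M : ℝ := ((b : ℝ) - 1) * ∑ j ∈ range (m + 1), |(q j : ℝ)| * G + |(e : ℝ)| with hM
  have hYa : ∀ k, |(Y k : ℝ) - (b : ℝ) ^ k * (T * x)| ≤ M := by
    intro k
    have e1 : (Y k : ℝ) - (b : ℝ) ^ k * (T * x) =
        ((b : ℝ) - 1) * ∑ j ∈ range (m + 1), (q j : ℝ) *
          ((Wk (k + j) : ℝ) - (b : ℝ) ^ (k + j) * x) + e := by
      have e2 : ∑ j ∈ range (m + 1), (q j : ℝ) *
          ((Wk (k + j) : ℝ) - (b : ℝ) ^ (k + j) * x) =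
          ∑ j ∈ range (m + 1), (q j : ℝ) * (Wk (k + j) : ℝ) -
            (b : ℝ) ^ k * ((∑ j ∈ range (m + 1), (q j : ℝ) * (b : ℝ) ^ j) * x) := by
        rw [Finset.sum_mul, Finset.mul_sum, ← Finset.sum_sub_distrib]
        apply Finset.sum_congr rfl
        intro j _
        rw [pow_add]; ring
      rw [e2]
      simp only [hY, hT]
      push_cast
      ring
    rw [e1]
    refine (abs_add_le _ _).trans ?_
    rw [hM]
    apply add_le_add _ le_rfl
    rw [abs_mul, abs_of_nonneg hb1]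
    apply mul_le_mul_of_nonneg_left _ hb1
    refine (Finset.abs_sum_le_sum_abs _ _).trans ?_
    apply Finset.sum_le_sum
    intro j _
    rw [abs_mul]
    exact mul_le_mul_of_nonneg_left (hWa' (k + j)) (abs_nonneg _)
  have hUa : ∀ n, |(U n : ℝ) - (b : ℝ) ^ n * (S * (T * x))| ≤ |(S : ℝ)| * M := by
    intro n
    have e : (U n : ℝ) - (b : ℝ) ^ n * (S * (T * x)) = S * ((Y n : ℝ) - (b : ℝ) ^ n * (T * x)) := by
      simp only [hU]; push_cast; ring
    rw [e, abs_mul]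
    exact mul_le_mul_of_nonneg_left (hYa n) (by positivity)
  have hUd : ∀ k, dlt b U (k + 1) =
      S * (((b : ℤ) - 1) * (∑ j ∈ range (m + 1), q j * g (k + 1 + j) - e)) := by
    intro k
    have h1 : dlt b U (k + 1) = U (k + 1) - b * U k := rfl
    rw [h1, ← hYs k]
    simp only [hU]
    ring
  have hUd0 : ∀ k, 1 ≤ k → (dlt b U k ≠ 0 ↔ ∑ j ∈ range (m + 1), q j * g (k + j) ≠ e) := by
    intro k hk
    obtain ⟨k', rfl⟩ : ∃ k', k = k' + 1 := ⟨k - 1, by omega⟩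
    rw [hUd k', Ne, mul_eq_zero, mul_eq_zero]
    constructor
    · intro h1 h2
      exact h1 (Or.inr (Or.inr (sub_eq_zero.2 h2)))
    · intro h1 h2
      rcases h2 with h2 | h2 | h2
      · exact hS h2
      · exact hbZ h2
      · exact h1 (sub_eq_zero.1 h2)
  have hG0 : 0 ≤ G := (abs_nonneg _).trans (hg 0)
  set G' : ℕ := (|S| * (((b : ℤ) - 1) * (∑ j ∈ range (m + 1), |q j| * G + |e|))).toNat with hG'
  have hbZ1 : (0 : ℤ) ≤ (b : ℤ) - 1 := by
    have : (2 : ℤ) ≤ b := by exact_mod_cast hb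
    omega
  have hUG : ∀ k, 1 ≤ k → |dlt b U k| ≤ G' := by
    intro k hk
    obtain ⟨k', rfl⟩ : ∃ k', k = k' + 1 := ⟨k - 1, by omega⟩
    refine le_trans ?_ (Int.self_le_toNat _)
    rw [hUd k', abs_mul, abs_mul, abs_of_nonneg hbZ1]
    apply mul_le_mul_of_nonneg_left _ (abs_nonneg _)
    apply mul_le_mul_of_nonneg_left _ hbZ1
    refine (abs_sub _ _).trans (add_le_add ?_ le_rfl)
    refine (Finset.abs_sum_le_sum_abs _ _).trans (Finset.sum_le_sum fun j _ => ?_)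
    rw [abs_mul]
    exact mul_le_mul_of_nonneg_left (hg _) (abs_nonneg _)
  obtain ⟨c, hc, N0, hN0⟩ := growth f hfm hfi hd b hb _ _ (hirr1.intCast_mul hS) hroot U hUa G' hUG
  refine ⟨c, hc, N0, fun N L W hN hL hW hWN hgap => ?_⟩
  have hgap' : Gap (Dp b U) N (Nat.sqrt N + 1) L W := by
    intro k l hk hDk hDl hkl hlN
    have h1 : N ≤ k ^ 2 := by
      have h2 : N < (Nat.sqrt N + 1) * (Nat.sqrt N + 1) := Nat.lt_succ_sqrt N
      have h3 : (Nat.sqrt N + 1) * (Nat.sqrt N + 1) ≤ k * k := Nat.mul_le_mul hk hk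
      rw [pow_two]; omega
    rcases hgap k l h1 hkl hlN ((hUd0 k hDk.1).1 hDk.2) ((hUd0 l hDl.1).1 hDl.2) with h | h
    · left; omega
    · right; omega
  have h := hN0 N L W hN hL hW hWN hgap'
  refine h.trans (le_of_eq ?_)
  unfold Dc
  congr 2
  apply Finset.filter_congr
  intro k hk
  rw [Finset.mem_Icc] at hk
  exact hUd0 k hk.1

/-- gaps which are at least `k ^ ε` -/
theorem out_gaps (x : ℝ) (halg : IsAlgebraic ℚ x) (hirr : Irrational x) (b : ℕ) (hb : 2 ≤ b)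
    (g : ℕ → ℤ) (G : ℤ) (hg : ∀ k, |g k| ≤ G)
    (hsum : HasSum (fun k : ℕ => (g k : ℝ) / (b : ℝ) ^ k) x)
    (m : ℕ) (q : ℕ → ℤ) (e : ℤ) (hq : ∑ j ∈ range (m + 1), q j * (b : ℤ) ^ j ≠ 0)
    (ε : ℝ) (hε : 0 < ε) (K0 : ℕ)
    (hgap : ∀ k l : ℕ, K0 ≤ k → k < l → ∑ j ∈ range (m + 1), q j * g (k + j) ≠ e →
      ∑ j ∈ range (m + 1), q j * g (l + j) ≠ e → (k : ℝ) ^ ε ≤ (l : ℝ) - k) :
    ∃ c : ℝ, 0 < c ∧ ∃ N0 : ℕ, ∀ N : ℕ, N0 ≤ N →
      Real.exp (c * √(Real.log N)) ≤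
        (((Icc 1 N).filter (fun k : ℕ => ∑ j ∈ range (m + 1), q j * g (k + j) ≠ e)).card : ℝ) := by
  obtain ⟨c, hc, N0, h⟩ := out x halg hirr b hb g G hg hsum m q e hq
  set δ : ℝ := min ε 1 with hδ
  have hδ0 : 0 < δ := lt_min hε one_pos
  have hδ1 : δ ≤ 1 := min_le_right _ _
  have hδε : δ ≤ ε := min_le_left _ _
  refine ⟨c * √(δ / 2), by positivity, max (max N0 ((K0 + 1) ^ 2)) ⌈Real.exp (2 / δ)⌉₊, ?_⟩
  intro N hN
  have hNN0 : N0 ≤ N := (le_max_left _ _).trans ((le_max_left _ _).trans hN)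
  have hNK : (K0 + 1) ^ 2 ≤ N := (le_max_right _ _).trans ((le_max_left _ _).trans hN)
  have hNe : Real.exp (2 / δ) ≤ N :=
    (Nat.le_ceil _).trans (by exact_mod_cast (le_max_right _ _).trans hN)
  have hN1 : 1 ≤ N := le_trans (Nat.one_le_pow _ _ (by omega)) hNK
  have hN1r : (1 : ℝ) ≤ N := by exact_mod_cast hN1
  have hlogN : 2 / δ ≤ Real.log N := by
    rw [Real.le_log_iff_exp_le (by linarith)]; exact hNe
  set W : ℕ := ⌈(N : ℝ) ^ (δ / 2)⌉₊ with hW
  have hWlow : (N : ℝ) ^ (δ / 2) ≤ W := Nat.le_ceil _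
  have hWpos : (0 : ℝ) < (N : ℝ) ^ (δ / 2) := by positivity
  have hW1 : 1 ≤ W := Nat.ceil_pos.2 hWpos
  have hWN : W ≤ N := by
    apply Nat.ceil_le.2
    calc (N : ℝ) ^ (δ / 2) ≤ (N : ℝ) ^ (1 : ℝ) :=
          Real.rpow_le_rpow_of_exponent_le hN1r (by linarith)
      _ = N := Real.rpow_one _
  have h1 := h N 1 W hNN0 le_rfl hW1 hWN (by
    intro k l hk hkl hlN hfk hfl
    right
    have hkK : K0 ≤ k := by
      by_contra hcon
      push Not at hcon
      have : k ^ 2 < (K0 + 1) ^ 2 := Nat.pow_lt_pow_left (by omega) (by norm_num)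
      omega
    have hk1 : 1 ≤ k := by
      by_contra hcon
      have : k = 0 := by omega
      rw [this] at hk
      simp at hk
      omega
    have hk1r : (1 : ℝ) ≤ k := by exact_mod_cast hk1
    have h2 := hgap k l hkK hkl hfk hfl
    have h3 : (N : ℝ) ^ (δ / 2) ≤ (k : ℝ) ^ ε := by
      calc (N : ℝ) ^ (δ / 2) ≤ ((k : ℝ) ^ 2) ^ (δ / 2) :=
            Real.rpow_le_rpow (by positivity) (by exact_mod_cast hk) (by positivity)
        _ = (k : ℝ) ^ δ := by
            rw [← Real.rpow_natCast, ← Real.rpow_mul (by positivity)]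
            congr 1
            push_cast
            ring
        _ ≤ (k : ℝ) ^ ε := Real.rpow_le_rpow_of_exponent_le hk1r hδε
    apply Nat.ceil_le.2
    rw [Nat.cast_sub hkl.le]
    linarith)
  refine le_trans ?_ h1
  apply Real.exp_le_exp.2
  rw [mul_assoc]
  apply mul_le_mul_of_nonneg_left _ hc.le
  have hlogW : δ / 2 * Real.log N ≤ Real.log W := by
    have h2 := Real.log_le_log hWpos hWlow
    rwa [Real.log_rpow (by linarith)] at h2
  have hlogW1 : 1 ≤ Real.log W := by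
    refine le_trans ?_ hlogW
    rw [div_le_iff₀ hδ0] at hlogN
    linarith
  have h3 : √(δ / 2) * √(Real.log N) ≤ √(Real.log W) := by
    rw [← Real.sqrt_mul (by positivity)]
    exact Real.sqrt_le_sqrt hlogW
  refine le_min h3 ?_
  refine h3.trans ?_
  rw [Nat.cast_one, div_one]
  rw [Real.sqrt_le_left (by linarith)]
  nlinarith

end Pool.Agent.H52.NF
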