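import Pool.Agent.H52.NF.Fin

/-!
Existence of a cluster with nonzero mass (Liouville's inequality).
-/

set_option autoImplicit false

namespace Pool.Agent.H52.NF

open Finset
open Pool.Agent.H52.NF.DC (dlt)

theorem step_zero (b : ℕ) (U : ℕ → ℤ) (R : ℕ) (h : ¬ Dp b U (R + 1)) :
    U (R + 1) = b * U R := by
  have h' : dlt b U (R + 1) = 0 := by
    by_contra hne
    exact h ⟨by omega, hne⟩
  simp only [dlt] at h'
  linarith

/-- if all clusters between `R0` and `T` have mass zero, then `U` is a geometric progression -/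
theorem null_clusters (b : ℕ) (U : ℕ → ℤ) (N Z L W R0 T : ℕ) (hgap : Gap (Dp b U) N Z L W)
    (hLW : 2 * L < W) (hR0 : Z + W ≤ R0) (hT : T ≤ N)
    (hnull : ∀ a, Node (Dp b U) N L W a → R0 ≤ a → a ≤ T → mass b U L a = 0) :
    ∃ R1 R2, R0 ≤ R1 ∧ R1 ≤ R0 + L ∧ T ≤ R2 ∧ R1 ≤ R2 ∧ U R2 = (b : ℤ) ^ (R2 - R1) * U R1 := by
  classical
  set C : ℕ → Prop := fun R => ∀ d d', Dp b U d → Dp b U d' → d ≤ R → R < d' → d' ≤ N →
    d + W ≤ d' with hC
  -- the first cut
  have hR1 : ∃ R1, R0 ≤ R1 ∧ R1 ≤ R0 + L ∧ C R1 := by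
    by_cases h0 : C R0
    · exact ⟨R0, le_rfl, by omega, h0⟩
    · simp only [hC] at h0
      push Not at h0
      obtain ⟨d, d', hd, hd', h1, h2, h3, h4⟩ := h0
      have h5 : d' ≤ d + L := by
        rcases hgap d d' (by omega) hd hd' (by omega) h3 with h | h <;> omega
      refine ⟨d + L, by omega, by omega, fun e e' he he' h6 h7 h8 => ?_⟩
      have h9 : d + W ≤ e' := by
        rcases hgap d e' (by omega) hd he' (by omega) h8 with h | h <;> omega
      by_contra hcon'
      rcases hgap e e' (by omega) he he' (by omega) h8 with h | h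
      · omega
      · omega
  obtain ⟨R1, a1, a2, a3⟩ := hR1
  have key : ∀ T', R1 ≤ T' → T' ≤ max T R1 → ∃ R, T' ≤ R ∧ R1 ≤ R ∧ C R ∧
      U R = (b : ℤ) ^ (R - R1) * U R1 := by
    intro T' hT'
    induction T', hT' using Nat.le_induction with
    | base => intro _; exact ⟨R1, le_rfl, le_rfl, a3, by simp⟩
    | succ T' hT' ih =>
      intro hmax
      obtain ⟨R, h1, h2, h3, h4⟩ := ih (by omega)
      rcases Nat.lt_or_ge T' R with h5 | h5
      · exact ⟨R, h5, h2, h3, h4⟩
      have hRT : R = T' := by omega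
      subst hRT
      have hRN : R + 1 ≤ T := by
        rcases le_max_iff.1 hmax with h | h <;> omega
      by_cases h6 : Dp b U (R + 1)
      · -- a cluster
        have hnode : Node (Dp b U) N L W (R + 1) := by
          refine ⟨h6, by omega, fun d hd hdN hd1 hd2 => ?_⟩
          have h7 : R + 1 ≤ d := by
            by_contra hcon
            push Not at hcon
            have := h3 d (R + 1) hd h6 (by omega) (by omega) (by omega)
            omega
          refine ⟨h7, ?_⟩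
          rcases h7.lt_or_eq with h | h
          · rcases hgap (R + 1) d (by omega) h6 hd h hdN with h' | h' <;> omega
          · omega
        have h8 := hnull (R + 1) hnode (by omega) hRN
        unfold mass at h8
        rw [Nat.add_sub_cancel] at h8
        refine ⟨R + 1 + L, by omega, by omega, ?_, ?_⟩
        · intro e e' he he' g1 g2 g3
          by_contra hcon'
          have g4 : R + 1 + W ≤ e' := by
            rcases hgap (R + 1) e' (by omega) h6 he' (by omega) g3 with h' | h' <;> omega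
          rcases hgap e e' (by omega) he he' (by omega) g3 with h | h <;> omega
        · have h9 : U (R + 1 + L) = (b : ℤ) ^ (L + 1) * U R := by linarith
          rw [h9, h4, ← mul_assoc, ← pow_add]
          congr 2
          omega
      · refine ⟨R + 1, le_rfl, by omega, ?_, ?_⟩
        · intro e e' he he' g1 g2 g3
          rcases g1.lt_or_eq with h | h
          · exact h3 e e' he he' (by omega) (by omega) g3
          · exact absurd (h ▸ he) h6
        · rw [step_zero b U R h6, h4, ← mul_assoc, ← pow_succ']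
          congr 2
          omega
  obtain ⟨R, h1, h2, h3, h4⟩ := key (max T R1) (le_max_right _ _) le_rfl
  exact ⟨R1, R, a1, a2, (le_max_left _ _).trans h1, h2, h4⟩

/-- Liouville's inequality for the sequence `U` -/
theorem liouville_gap (f : Polynomial ℤ) (hf0 : f ≠ 0) (b : ℕ) (hb : 2 ≤ b) (t C0 : ℝ)
    (hirr : Irrational t) (ht : (f.map (Int.castRingHom ℝ)).eval t = 0)
    (U : ℕ → ℤ) (hU : ∀ K, |(U K : ℝ) - (b : ℝ) ^ K * t| ≤ C0) :
    ∃ C1 : ℕ, ∀ R1 R2 : ℕ, R1 ≤ R2 → U R2 = (b : ℤ) ^ (R2 - R1) * U R1 →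
      R2 ≤ f.natDegree * R1 + C1 := by
  have hb0 : (0 : ℝ) < b := by positivity
  have hb2 : (2 : ℝ) ≤ b := by exact_mod_cast hb
  have hC0 : 0 ≤ C0 := (abs_nonneg _).trans (hU 0)
  obtain ⟨A, hA, hA2⟩ := Liouville.exists_pos_real_of_irrational_root hirr hf0 ht
  obtain ⟨C1, hC1⟩ := pow_unbounded_of_one_lt (A * C0) (show (1 : ℝ) < b by linarith)
  refine ⟨C1, fun R1 R2 h12 hU2 => ?_⟩
  have hpos : 1 ≤ b ^ R1 := Nat.one_le_pow _ _ (by omega)
  have h1 := hA2 (U R1) (b ^ R1 - 1)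
  have e1 : (((b ^ R1 - 1 : ℕ) : ℝ) + 1) = (b : ℝ) ^ R1 := by
    rw [Nat.cast_sub hpos]; push_cast; ring
  rw [e1] at h1
  have hbR1 : (0 : ℝ) < (b : ℝ) ^ R1 := by positivity
  have hbR2 : (0 : ℝ) < (b : ℝ) ^ R2 := by positivity
  have e2 : t - (U R1 : ℝ) / (b : ℝ) ^ R1 = -(((U R2 : ℝ) - (b : ℝ) ^ R2 * t) / (b : ℝ) ^ R2) := by
    have e3 : (U R2 : ℝ) = (b : ℝ) ^ (R2 - R1) * U R1 := by exact_mod_cast hU2
    have e4 : (b : ℝ) ^ R2 = (b : ℝ) ^ (R2 - R1) * (b : ℝ) ^ R1 := by
      rw [← pow_add]; congr 1; omega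
    rw [e3, e4]
    have : (0 : ℝ) < (b : ℝ) ^ (R2 - R1) := by positivity
    field_simp
    ring
  have h2 : |t - (U R1 : ℝ) / (b : ℝ) ^ R1| ≤ C0 / (b : ℝ) ^ R2 := by
    rw [e2, abs_neg, abs_div, abs_of_pos hbR2]
    exact div_le_div_of_nonneg_right (hU R2) hbR2.le
  have h3 : (1 : ℝ) ≤ ((b : ℝ) ^ R1) ^ f.natDegree * (C0 / (b : ℝ) ^ R2 * A) := by
    refine h1.trans ?_
    apply mul_le_mul_of_nonneg_left _ (by positivity)
    exact mul_le_mul_of_nonneg_right h2 hA.le
  have h4 : (b : ℝ) ^ R2 ≤ ((b : ℝ) ^ R1) ^ f.natDegree * (A * C0) := by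
    have e5 : ((b : ℝ) ^ R1) ^ f.natDegree * (C0 / (b : ℝ) ^ R2 * A) =
        ((b : ℝ) ^ R1) ^ f.natDegree * (A * C0) / (b : ℝ) ^ R2 := by ring
    rw [e5, le_div_iff₀ hbR2, one_mul] at h3
    exact h3
  have h5 : (b : ℝ) ^ R2 ≤ (b : ℝ) ^ (f.natDegree * R1 + C1) := by
    refine h4.trans ?_
    rw [pow_add, ← pow_mul, mul_comm R1]
    exact mul_le_mul_of_nonneg_left hC1.le (by positivity)
  exact (pow_le_pow_iff_right₀ (by linarith)).1 h5

/-- existence of a cluster with nonzero mass -/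
theorem exists_start (f : Polynomial ℤ) (hf0 : f ≠ 0) (b : ℕ) (hb : 2 ≤ b) (t C0 : ℝ)
    (hirr : Irrational t) (ht : (f.map (Int.castRingHom ℝ)).eval t = 0)
    (U : ℕ → ℤ) (hU : ∀ K, |(U K : ℝ) - (b : ℝ) ^ K * t| ≤ C0) :
    ∃ C1 : ℕ, ∀ N Z L W R0 : ℕ, Gap (Dp b U) N Z L W → 2 * L < W → Z + W ≤ R0 →
      f.natDegree * (R0 + L) + C1 ≤ N →
      ∃ a, Node (Dp b U) N L W a ∧ R0 ≤ a ∧ a ≤ f.natDegree * (R0 + L) + C1 ∧
        mass b U L a ≠ 0 := by
  obtain ⟨C1, hC1⟩ := liouville_gap f hf0 b hb t C0 hirr ht U hU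
  refine ⟨C1 + 1, fun N Z L W R0 hgap hLW hZR hN => ?_⟩
  by_contra hcon
  push Not at hcon
  obtain ⟨R1, R2, h1, h2, h3, h4, h5⟩ := null_clusters b U N Z L W R0
    (f.natDegree * (R0 + L) + (C1 + 1)) hgap hLW hZR hN (fun a ha h1 h2 => by
      exact hcon a ha h1 h2)
  have h6 := hC1 R1 R2 h4 h5
  have h7 : f.natDegree * R1 ≤ f.natDegree * (R0 + L) := Nat.mul_le_mul_left _ h2
  omega

/-- there are infinitely many nonzero places -/
theorem dn_unbounded (b : ℕ) (hb : 2 ≤ b) (t C0 : ℝ)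
    (hirr : Irrational t) (U : ℕ → ℤ) (hU : ∀ K, |(U K : ℝ) - (b : ℝ) ^ K * t| ≤ C0) (m : ℕ) :
    ∃ N0 : ℕ, ∀ N, N0 ≤ N → m ≤ ((Finset.Icc 1 N).filter (fun k => dlt b U k ≠ 0)).card := by
  classical
  have hb0 : (0 : ℝ) < b := by positivity
  have hb2 : (2 : ℝ) ≤ b := by exact_mod_cast hb
  -- beyond every place there is a nonzero place
  have hinf : ∀ K, ∃ k, K < k ∧ dlt b U k ≠ 0 := by
    intro K
    by_contra hcon
    push Not at hcon
    have h1 : ∀ j, U (K + j) = (b : ℤ) ^ j * U K := by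
      intro j
      induction j with
      | zero => simp
      | succ j ih =>
        have h2 := hcon (K + j + 1) (by omega)
        have h3 : dlt b U (K + j + 1) = U (K + j + 1) - b * U (K + j) := rfl
        rw [h3] at h2
        have h4 : U (K + (j + 1)) = b * U (K + j) := by
          rw [show K + (j + 1) = K + j + 1 by ring]; linarith
        rw [h4, ih, pow_succ]; ring
    have h2 : (U K : ℝ) - (b : ℝ) ^ K * t = 0 := by
      by_contra hne
      have hpos : 0 < |(U K : ℝ) - (b : ℝ) ^ K * t| := abs_pos.2 hne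
      obtain ⟨j, hj⟩ := pow_unbounded_of_one_lt (C0 / |(U K : ℝ) - (b : ℝ) ^ K * t|)
        (show (1 : ℝ) < b by linarith)
      have h3 := hU (K + j)
      have e : (U (K + j) : ℝ) - (b : ℝ) ^ (K + j) * t =
          (b : ℝ) ^ j * ((U K : ℝ) - (b : ℝ) ^ K * t) := by
        rw [h1 j]; push_cast; rw [pow_add]; ring
      rw [e, abs_mul, abs_of_pos (by positivity)] at h3
      rw [div_lt_iff₀ hpos] at hj
      linarith
    apply hirr
    refine ⟨(U K : ℚ) / (b : ℚ) ^ K, ?_⟩
    push_cast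
    have hbK : (b : ℝ) ^ K ≠ 0 := by positivity
    field_simp
    linarith
  induction m with
  | zero => exact ⟨0, fun N _ => Nat.zero_le _⟩
  | succ m ih =>
    obtain ⟨N0, h0⟩ := ih
    obtain ⟨k, hk, hk2⟩ := hinf N0
    refine ⟨k, fun N hN => ?_⟩
    have h1 := h0 N0 le_rfl
    have hsub : insert k ((Finset.Icc 1 N0).filter (fun k => dlt b U k ≠ 0)) ⊆
        (Finset.Icc 1 N).filter (fun k => dlt b U k ≠ 0) := by
      intro j hj
      rw [Finset.mem_insert] at hj
      rw [Finset.mem_filter, Finset.mem_Icc]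
      rcases hj with rfl | hj
      · exact ⟨⟨by omega, hN⟩, hk2⟩
      · rw [Finset.mem_filter, Finset.mem_Icc] at hj
        exact ⟨⟨hj.1.1, by omega⟩, hj.2⟩
    have h2 := Finset.card_le_card hsub
    rw [Finset.card_insert_of_notMem] at h2
    · omega
    · rw [Finset.mem_filter, Finset.mem_Icc]
      omega

end Pool.Agent.H52.NF
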